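import Mathlib

/-!
Pluripotential theory on the compact Kaehler surface `P^1 × P^1`.
-/

namespace Pool.Agent.Lib.MP_ada39e_an

open Filter Topology MeasureTheory
open scoped ContDiff Real

/-- The compact complex surface `P^1 × P^1`, with `P^1 = ℂ ∪ {∞}`. -/
def X : Type := OnePoint ℂ × OnePoint ℂ

noncomputable instance : TopologicalSpace X :=
  inferInstanceAs (TopologicalSpace (OnePoint ℂ × OnePoint ℂ))

noncomputable instance : MeasurableSpace X := borel X

/-- The two standard charts of `P^1`: `z ↦ z` and `z ↦ 1 / z` (with `0 ↦ ∞`). -/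
noncomputable def c (i : Bool) (z : ℂ) : OnePoint ℂ :=
  if i then (if z = 0 then OnePoint.infty else OnePoint.some z⁻¹) else OnePoint.some z

/-- The four standard holomorphic charts of `P^1 × P^1`. -/
noncomputable def chart (i j : Bool) (p : ℂ × ℂ) : X := (c i p.1, c j p.2)

/-- The potential, in each of the four charts, of the product Fubini-Study form `ω`. -/
noncomputable def rho (p : ℂ × ℂ) : ℝ := Real.log (1 + ‖p.1‖ ^ 2) + Real.log (1 + ‖p.2‖ ^ 2)

/-- The second real derivative of `U` at `p` in the directions `v`, `v'`. -/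
noncomputable def D2 (U : ℂ × ℂ → ℝ) (p v v' : ℂ × ℂ) : ℝ :=
  fderiv ℝ (fun q => fderiv ℝ U q v) p v'

/-- Four times the Levi form of `U` at `p` in the direction `v`. -/
noncomputable def levi (U : ℂ × ℂ → ℝ) (p v : ℂ × ℂ) : ℝ :=
  D2 U p v v + D2 U p (Complex.I • v) (Complex.I • v)

/-- The density of `(dd^c U)^2` with respect to Lebesgue measure, `dd^c = (i / π) ∂ ∂bar`:
it is `8 / π^2` times the determinant of the complex Hessian. -/
noncomputable def maDens (U : ℂ × ℂ → ℝ) (p : ℂ × ℂ) : ℝ :=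
  (levi U p (1, 0) * levi U p (0, 1)
    - (D2 U p (1, 0) (0, 1) + D2 U p (Complex.I, 0) (0, Complex.I)) ^ 2
    - (D2 U p (1, 0) (0, Complex.I) - D2 U p (Complex.I, 0) (0, 1)) ^ 2) / (2 * π ^ 2)

/-- Smooth `ω`-plurisubharmonic functions. -/
def SmoothPSH (ψ : X → ℝ) : Prop :=
  ∀ i j, ContDiff ℝ ∞ (ψ ∘ chart i j) ∧ ∀ p v, 0 ≤ levi (rho + ψ ∘ chart i j) p v

/-- The measure `(ω + dd^c ψ)^2` of a smooth `ω`-psh function (the complement of the affine chart
is negligible for smooth top degree forms). -/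
noncomputable def maSmooth (ψ : X → ℝ) : Measure X :=
  ((volume : Measure (ℂ × ℂ)).withDensity
    fun p => ENNReal.ofReal (maDens (rho + ψ ∘ chart false false) p)).map (chart false false)

/-- `ω`-psh functions: decreasing limits, not identically `-∞`, of smooth `ω`-psh functions. -/
def PSH (φ : X → EReal) : Prop :=
  (∃ x, φ x ≠ ⊥) ∧ ∃ ψ : ℕ → X → ℝ, (∀ k, SmoothPSH (ψ k)) ∧ Antitone ψ ∧
    ∀ x, Tendsto (fun k => (ψ k x : EReal)) atTop (𝓝 (φ x))

/-- `μ` is the Bedford-Taylor measure `(ω + dd^c u)^2` of the bounded `ω`-psh function `u`: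
the weak limit of `(ω + dd^c ψ_k)^2` along smooth `ω`-psh functions decreasing to `u`. -/
def IsBT (u : X → ℝ) (μ : Measure X) : Prop :=
  (∃ C, ∀ x, |u x| ≤ C) ∧ IsFiniteMeasure μ ∧
    ∃ ψ : ℕ → X → ℝ, (∀ k, SmoothPSH (ψ k)) ∧ Antitone ψ ∧
      (∀ x, Tendsto (fun k => ψ k x) atTop (𝓝 (u x))) ∧
      ∀ g : C(X, ℝ), Tendsto (fun k => ∫ x, g x ∂(maSmooth (ψ k))) atTop (𝓝 (∫ x, g x ∂μ))

/-- `ν` is the non-pluripolar Monge-Ampere measure of `φ`: the limit, on every Borel set, of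
`1_{φ > -j} (ω + dd^c max (φ, -j))^2`. -/
def IsNPMA (φ : X → EReal) (ν : Measure X) : Prop :=
  ∃ μ : ℕ → Measure X, (∀ j : ℕ, IsBT (fun x => (max (φ x) (-(j : ℝ) : ℝ)).toReal) (μ j)) ∧
    ∀ B, MeasurableSet B →
      Tendsto (fun j : ℕ => μ j (B ∩ {x | ((-(j : ℝ) : ℝ) : EReal) < φ x})) atTop (𝓝 (ν B))

end Pool.Agent.Lib.MP_ada39e_an
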