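import Pool.Agent.Lib.MP_ada39e_an.Toric

/-!
Levi form and Monge-Ampere density of toric functions on `ℂ^2`.
-/

namespace Pool.Agent.Lib.MP_ada39e_an

set_option maxHeartbeats 400000

open Filter Topology MeasureTheory Set
open scoped ContDiff Real

/-- logarithmic coordinates -/
noncomputable def Lg (p : ℂ × ℂ) : ℝ × ℝ := (Real.log (‖p.1‖ ^ 2), Real.log (‖p.2‖ ^ 2))

/-- the open torus -/
def T : Set (ℂ × ℂ) := {p | p.1 ≠ 0 ∧ p.2 ≠ 0}

theorem isOpen_T : IsOpen T :=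
  (isOpen_ne_fun continuous_fst continuous_const).inter
    (isOpen_ne_fun continuous_snd continuous_const)

theorem ae_T : ∀ᵐ p : ℂ × ℂ, p ∈ T := by
  have h1 : ∀ᵐ z : ℂ, z ≠ 0 := Measure.ae_ne volume 0
  exact ((Measure.quasiMeasurePreserving_fst (μ := volume) (ν := volume)).ae h1).and
    ((Measure.quasiMeasurePreserving_snd (μ := volume) (ν := volume)).ae h1)

theorem dense_T : Dense T := Measure.dense_of_ae ae_T

theorem log_deriv {z : ℂ} (hz : z ≠ 0) : ∃ L : ℂ →L[ℝ] ℝ,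
    HasFDerivAt (fun z : ℂ => Real.log (‖z‖ ^ 2)) L z ∧ ∀ v, L v = 2 * (v / z).re := by
  refine ⟨_, (hasStrictFDerivAt_norm_sq z).hasFDerivAt.log (by positivity), fun v => ?_⟩
  simp [Complex.div_re, Complex.sq_norm]
  ring

theorem inv_deriv {z : ℂ} (hz : z ≠ 0) (u : ℂ) : ∃ L : ℂ →L[ℝ] ℝ,
    HasFDerivAt (fun z : ℂ => 2 * (u / z).re) L z ∧ ∀ v, L v = -2 * (u * v / z ^ 2).re := by
  have h := (((hasDerivAt_inv hz).const_mul u).hasFDerivAt.restrictScalars ℝ)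
  refine ⟨_, (Complex.reCLM.hasFDerivAt.comp z h).const_mul 2, fun v => ?_⟩
  have : v * (u * -(z ^ 2)⁻¹) = -(u * v / z ^ 2) := by ring
  change 2 * (v * (u * -(z ^ 2)⁻¹)).re = _
  rw [this, Complex.neg_re]; ring

theorem Lg_smooth {p : ℂ × ℂ} (hp : p ∈ T) : ContDiffAt ℝ ∞ Lg p :=
  (((contDiff_norm_sq ℝ).contDiffAt.comp p contDiffAt_fst).log
    (pow_pos (norm_pos_iff.2 hp.1) 2).ne').prodMk
  (((contDiff_norm_sq ℝ).contDiffAt.comp p contDiffAt_snd).log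
    (pow_pos (norm_pos_iff.2 hp.2) 2).ne')

theorem d_Lg {F : ℝ × ℝ → ℝ} (hF : ContDiff ℝ ∞ F) {p : ℂ × ℂ} (hp : p ∈ T) (v : ℂ × ℂ) :
    d (F ∘ Lg) v p = d F (2 * (v.1 / p.1).re, 2 * (v.2 / p.2).re) (Lg p) := by
  obtain ⟨L, h1, h2⟩ := log_deriv hp.1
  obtain ⟨L', h3, h4⟩ := log_deriv hp.2
  have h5 : HasFDerivAt Lg _ p := (h1.comp p hasFDerivAt_fst).prodMk (h3.comp p hasFDerivAt_snd)
  refine (d_eq ((hasF hF.contDiffAt).comp p h5) v).trans ?_
  simp [d, h2, h4]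

theorem D2_toric {F : ℝ × ℝ → ℝ} (hF : ContDiff ℝ ∞ F) {U : ℂ × ℂ → ℝ} {p : ℂ × ℂ} (hp : p ∈ T)
    (hU : U =ᶠ[𝓝 p] F ∘ Lg) (v v' : ℂ × ℂ) :
    D2 U p v v' = d (d F (2 * (v.1 / p.1).re, 2 * (v.2 / p.2).re))
      (2 * (v'.1 / p.1).re, 2 * (v'.2 / p.2).re) (Lg p) +
      (-2 * (v.1 * v'.1 / p.1 ^ 2).re * d F (1, 0) (Lg p) +
        -2 * (v.2 * v'.2 / p.2 ^ 2).re * d F (0, 1) (Lg p)) := by
  change d (d U v) v' p = _
  rw [dd_congr hU]
  have h1 : d (F ∘ Lg) v =ᶠ[𝓝 p] fun q => 2 * (v.1 / q.1).re * (d F (1, 0) ∘ Lg) q +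
      2 * (v.2 / q.2).re * (d F (0, 1) ∘ Lg) q := by
    filter_upwards [isOpen_T.mem_nhds hp] with q hq
    rw [d_Lg hF hq, d_coord]; rfl
  rw [(d_congr h1 v').eq_of_nhds]
  obtain ⟨L, h2, h3⟩ := inv_deriv hp.1 v.1
  obtain ⟨L', h4, h5⟩ := inv_deriv hp.2 v.2
  have h6 := fun w => hasF ((contDiff_d hF w).contDiffAt.comp p (Lg_smooth hp))
  have h7 := fun w => d_Lg (contDiff_d hF w) hp v'
  refine (d_eq (((h2.comp p hasFDerivAt_fst).mul (h6 (1, 0))).add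
    ((h4.comp p hasFDerivAt_snd).mul (h6 (0, 1)))) v').trans ?_
  rw [dd_symm hF.contDiffAt, d_coord (d F _), dd_symm hF.contDiffAt _ (1, 0),
    dd_symm hF.contDiffAt _ (0, 1), ← h7, ← h7]
  simp [d, h3, h5]
  ring

theorem levi_toric {F : ℝ × ℝ → ℝ} (hF : Good F) {U : ℂ × ℂ → ℝ} (hU : ContDiff ℝ ∞ U)
    (h : ∀ p ∈ T, U p = F (Lg p)) (p v : ℂ × ℂ) : 0 ≤ levi U p v := by
  have h1 : Continuous fun p => levi U p v :=
    (contDiff_d (contDiff_d hU v) v).continuous.add (contDiff_d (contDiff_d hU _) _).continuous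
  refine dense_T.induction (P := fun p => 0 ≤ levi U p v) (fun p hp => ?_)
    (isClosed_le continuous_const h1) p
  have h2 : U =ᶠ[𝓝 p] F ∘ Lg := by
    filter_upwards [isOpen_T.mem_nhds hp] with q hq using h q hq
  have h3 : ∀ a b : ℂ, (Complex.I * a * (Complex.I * a) / b).re = -(a * a / b).re := fun a b => by
    rw [show Complex.I * a * (Complex.I * a) / b = Complex.I ^ 2 * (a * a / b) by ring]
    simp
  rw [levi, D2_toric hF.smooth hp h2, D2_toric hF.smooth hp h2]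
  simp only [Prod.smul_fst, Prod.smul_snd, smul_eq_mul, h3]
  nlinarith [hF.psd (Lg p) (2 * (v.1 / p.1).re, 2 * (v.2 / p.2).re),
    hF.psd (Lg p) (2 * (Complex.I * v.1 / p.1).re, 2 * (Complex.I * v.2 / p.2).re)]

theorem maDens_toric {F : ℝ × ℝ → ℝ} (hF : ContDiff ℝ ∞ F) {U : ℂ × ℂ → ℝ} {p : ℂ × ℂ}
    (hp : p ∈ T) (hU : U =ᶠ[𝓝 p] F ∘ Lg) :
    maDens U p = 8 / π ^ 2 * (hdet F (Lg p) * (1 / ‖p.1‖ ^ 2) * (1 / ‖p.2‖ ^ 2)) := by
  have h1 : ∀ z : ℂ, 1 / ‖z‖ ^ 2 = (z⁻¹).re ^ 2 + (z⁻¹).im ^ 2 := fun z => by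
    rw [one_div, ← inv_pow, ← norm_inv, Complex.sq_norm, Complex.normSq_apply]; ring
  have h2 : ∀ a b a' b' : ℝ, d (d F (2 * a, 2 * b)) (2 * a', 2 * b') (Lg p) = _ :=
    fun a b a' b' => dd_coord hF.contDiffAt (2 * a, 2 * b) (2 * a', 2 * b')
  have h3 : ∀ b : ℂ, (Complex.I * Complex.I / b).re = -(1 * 1 / b).re := fun b => by
    simp [neg_div]
  simp only [maDens, levi, D2_toric hF hp hU, h2]
  simp only [hdet, h1, Prod.smul_mk, smul_eq_mul, mul_one,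
    mul_zero, zero_mul, zero_div, Complex.zero_re, h3]
  simp only [div_eq_mul_inv, one_mul, Complex.mul_re, Complex.I_re, Complex.I_im]
  ring

theorem lintegral_polar {G : ℝ → ENNReal} (hG : Measurable G) :
    ∫⁻ z : ℂ, G (Real.log (‖z‖ ^ 2)) * ENNReal.ofReal (1 / ‖z‖ ^ 2) =
      ENNReal.ofReal π * ∫⁻ x, G x := by
  rw [← Complex.lintegral_comp_polarCoord_symm, polarCoord_target, Measure.volume_eq_prod,
    ← Measure.prod_restrict]
  simp only [Complex.norm_polarCoord_symm, smul_eq_mul, sq_abs]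
  have h1 := lintegral_prod_mul (μ := volume.restrict (Ioi (0 : ℝ)))
    (ν := volume.restrict (Ioo (-π) π))
    (f := fun r : ℝ => ENNReal.ofReal r * (G (Real.log (r ^ 2)) * ENNReal.ofReal (1 / r ^ 2)))
    (g := fun _ => 1) (by fun_prop) aemeasurable_const
  simp only [mul_one] at h1
  rw [h1]
  have h2 : (fun x : ℝ => Real.exp (x / 2)) '' univ = Ioi 0 := by
    ext r
    simp only [image_univ, mem_range, mem_Ioi]
    exact ⟨fun ⟨x, hx⟩ => hx ▸ Real.exp_pos _,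
      fun hr => ⟨Real.log r * 2, by simp [Real.exp_log hr]⟩⟩
  rw [← h2, lintegral_image_eq_lintegral_abs_deriv_mul MeasurableSet.univ
    (f := fun x => Real.exp (x / 2)) (f' := fun x => Real.exp (x / 2) * (1 / 2))
    (fun x _ => ((hasDerivAt_id x).div_const 2).exp.hasDerivWithinAt)
    (fun x _ y _ h => by simpa using h)]
  have h3 : ∀ x : ℝ, ENNReal.ofReal |Real.exp (x / 2) * (1 / 2)| *
      (ENNReal.ofReal (Real.exp (x / 2)) * (G (Real.log (Real.exp (x / 2) ^ 2)) *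
        ENNReal.ofReal (1 / Real.exp (x / 2) ^ 2))) = ENNReal.ofReal (1 / 2) * G x := fun x => by
    have h4 := Real.exp_pos (x / 2)
    rw [Real.log_pow, Real.log_exp, abs_of_pos (by positivity), mul_comm (G _), ← mul_assoc,
      ← mul_assoc, ← ENNReal.ofReal_mul (by positivity), ← ENNReal.ofReal_mul (by positivity)]
    congr 2
    · field_simp
    · push_cast; ring
  simp only [h3, Measure.restrict_univ]
  rw [lintegral_const_mul _ hG, lintegral_one, Measure.restrict_apply_univ, Real.volume_Ioo,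
    mul_right_comm, ← ENNReal.ofReal_mul (by norm_num)]
  congr 2
  ring

theorem mass_toric {F : ℝ × ℝ → ℝ} (hF : ContDiff ℝ ∞ F) :
    ∫⁻ p : ℂ × ℂ, ENNReal.ofReal
      (8 / π ^ 2 * (hdet F (Lg p) * (1 / ‖p.1‖ ^ 2) * (1 / ‖p.2‖ ^ 2))) =
      8 * ∫⁻ q, ENNReal.ofReal (hdet F q) := by
  have hm : Measurable fun q => ENNReal.ofReal (hdet F q) :=
    (hdet_smooth hF).continuous.measurable.ennreal_ofReal
  have h1 : ∀ p : ℂ × ℂ, ENNReal.ofReal
      (8 / π ^ 2 * (hdet F (Lg p) * (1 / ‖p.1‖ ^ 2) * (1 / ‖p.2‖ ^ 2))) =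
      ENNReal.ofReal (8 / π ^ 2) * (ENNReal.ofReal (hdet F (Lg p)) *
        ENNReal.ofReal (1 / ‖p.2‖ ^ 2) * ENNReal.ofReal (1 / ‖p.1‖ ^ 2)) := fun p => by
    rw [ENNReal.ofReal_mul (by positivity), mul_right_comm, ENNReal.ofReal_mul' (by positivity),
      ENNReal.ofReal_mul' (by positivity)]
  have hL : Measurable Lg := by unfold Lg; fun_prop
  simp only [h1]
  rw [lintegral_const_mul' _ _ ENNReal.ofReal_ne_top, Measure.volume_eq_prod,
    lintegral_prod (fun p : ℂ × ℂ => ENNReal.ofReal (hdet F (Lg p)) *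
        ENNReal.ofReal (1 / ‖p.2‖ ^ 2) * ENNReal.ofReal (1 / ‖p.1‖ ^ 2))
      (((hm.comp hL).mul (by fun_prop)).mul (by fun_prop)).aemeasurable]
  have h2 : ∀ z : ℂ, ∫⁻ w : ℂ, ENNReal.ofReal (hdet F (Lg (z, w))) *
      ENNReal.ofReal (1 / ‖w‖ ^ 2) * ENNReal.ofReal (1 / ‖z‖ ^ 2) =
      (ENNReal.ofReal π * ∫⁻ y, ENNReal.ofReal (hdet F (Real.log (‖z‖ ^ 2), y))) *
        ENNReal.ofReal (1 / ‖z‖ ^ 2) := fun z => by
    rw [lintegral_mul_const' _ _ ENNReal.ofReal_ne_top,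
      ← lintegral_polar (G := fun y => ENNReal.ofReal (hdet F (Real.log (‖z‖ ^ 2), y)))
        (hm.comp measurable_prodMk_left)]
    rfl
  simp only [h2]
  rw [lintegral_polar (G := fun x => ENNReal.ofReal π * ∫⁻ y, ENNReal.ofReal (hdet F (x, y)))
    (hm.lintegral_prod_right'.const_mul _), lintegral_const_mul' _ _ ENNReal.ofReal_ne_top,
    Measure.volume_eq_prod, lintegral_prod _ hm.aemeasurable, ← mul_assoc, ← mul_assoc,
    ← ENNReal.ofReal_mul (by positivity), ← ENNReal.ofReal_mul (by positivity)]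
  congr 1
  rw [show 8 / π ^ 2 * π * π = (8 : ℝ) by field_simp]
  simp

end Pool.Agent.Lib.MP_ada39e_an
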