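import Pool.Agent.Lib.MP_ada39e_an.Profile

/-!
The example on `P^1 × P^1`.
-/

namespace Pool.Agent.Lib.MP_ada39e_an

set_option maxHeartbeats 400000

open Filter Topology MeasureTheory Set
open scoped ContDiff Real

instance : BorelSpace X := ⟨rfl⟩

instance : CompactSpace X := inferInstanceAs (CompactSpace (OnePoint ℂ × OnePoint ℂ))

instance : TopologicalSpace.MetrizableSpace X :=
  haveI : TopologicalSpace.MetrizableSpace (OnePoint ℂ) :=
    (onePointEquivSphereOfFinrankEq (ι := Fin 3) (V := ℂ) (by simp)).isEmbedding.metrizableSpace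
  inferInstanceAs (TopologicalSpace.MetrizableSpace (OnePoint ℂ × OnePoint ℂ))

instance : TopologicalSpace.SeparableSpace X :=
  letI := TopologicalSpace.metrizableSpaceMetric X
  inferInstance

theorem chart_open : IsOpenEmbedding (chart false false) :=
  OnePoint.isOpenEmbedding_coe.prodMap OnePoint.isOpenEmbedding_coe

theorem chart_emb : MeasurableEmbedding (chart false false) := chart_open.measurableEmbedding

/-- the function `1 / (1 + |z|^2)` on the Riemann sphere -/
noncomputable def sg (x : OnePoint ℂ) : ℝ := x.elim 0 fun z => 1 / (1 + ‖z‖ ^ 2)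

theorem sg_false (z : ℂ) : sg (c false z) = 1 / (1 + ‖z‖ ^ 2) := rfl

theorem sg_true (z : ℂ) : sg (c true z) = 1 - 1 / (1 + ‖z‖ ^ 2) := by
  by_cases hz : z = 0
  · simp [sg, c, hz]
  · have := norm_pos_iff.2 hz
    simp only [sg, c, hz, if_true, if_false, OnePoint.elim_some, norm_inv]
    field_simp; ring

theorem sg_nonneg (x : OnePoint ℂ) : 0 ≤ sg x := by
  induction x using OnePoint.rec
  · exact le_rfl
  · simp only [sg, OnePoint.elim_some]; positivity

theorem sg_le (x : OnePoint ℂ) : sg x ≤ 1 := by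
  induction x using OnePoint.rec
  · exact zero_le_one
  · simp only [sg, OnePoint.elim_some]
    exact (div_le_one (by positivity)).2 (le_add_of_nonneg_right (sq_nonneg _))

theorem sg_smooth (i : Bool) : ContDiff ℝ ∞ fun z => sg (c i z) := by
  have h : ContDiff ℝ ∞ fun z : ℂ => 1 / (1 + ‖z‖ ^ 2) :=
    contDiff_const.div (contDiff_const.add (contDiff_norm_sq ℝ)) fun z => by positivity
  cases i
  · exact h
  · simp only [sg_true]; exact contDiff_const.sub h

theorem sR_log {z : ℂ} (hz : z ≠ 0) : sR (Real.log (‖z‖ ^ 2)) = 1 / (1 + ‖z‖ ^ 2) := by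
  rw [sR, Real.exp_log (pow_pos (norm_pos_iff.2 hz) 2)]

theorem rho_smooth : ContDiff ℝ ∞ rho :=
  ((contDiff_const.add ((contDiff_norm_sq ℝ).comp contDiff_fst)).log
    fun p => by change 1 + ‖p.1‖ ^ 2 ≠ 0; positivity).add
  ((contDiff_const.add ((contDiff_norm_sq ℝ).comp contDiff_snd)).log
    fun p => by change 1 + ‖p.2‖ ^ 2 ≠ 0; positivity)

theorem pl_one (q : ℝ × ℝ) :
    pl 1 1 1 1 q = Real.log (1 + Real.exp q.1) + Real.log (1 + Real.exp q.2) := by
  rw [← Real.log_mul (by positivity) (by positivity), pl, po]; congr 1; ring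

theorem log_flip (x : ℝ) : Real.log (1 + Real.exp (-x)) = Real.log (1 + Real.exp x) - x := by
  rw [show 1 + Real.exp (-x) = (1 + Real.exp x) / Real.exp x by
    rw [Real.exp_neg]; field_simp; ring, Real.log_div (by positivity) (by positivity), Real.log_exp]

theorem rho_eq {p : ℂ × ℂ} (hp : p ∈ T) : rho p = pl 1 1 1 1 (Lg p) := by
  rw [pl_one, Lg, Real.exp_log (pow_pos (norm_pos_iff.2 hp.1) 2),
    Real.exp_log (pow_pos (norm_pos_iff.2 hp.2) 2), rho]

/-- toric functions on `X` -/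
noncomputable def lift (g : ℝ → ℝ → ℝ) (x : X) : ℝ := g (sg x.1) (1 - sg x.2)

/-- the associated function of the logarithmic coordinates -/
noncomputable def pot (g : ℝ → ℝ → ℝ) (q : ℝ × ℝ) : ℝ := pl 1 1 1 1 q + g (sR q.1) (1 - sR q.2)

theorem lift_chart (g : ℝ → ℝ → ℝ) (i j : Bool) (p : ℂ × ℂ) :
    lift g (chart i j p) = g (sg (c i p.1)) (1 - sg (c j p.2)) := rfl

theorem lift_eq (g : ℝ → ℝ → ℝ) {p : ℂ × ℂ} (hp : p ∈ T) :
    lift g (chart false false p) = g (sR (Lg p).1) (1 - sR (Lg p).2) := by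
  rw [lift_chart, sg_false, sg_false, ← sR_log hp.1, ← sR_log hp.2]; rfl

theorem smoothPSH_lift {g : ℝ → ℝ → ℝ} (hG : Good (pot g))
    (hs : ∀ i j, ContDiff ℝ ∞ (lift g ∘ chart i j)) : SmoothPSH (lift g) := by
  intro i j
  refine ⟨hs i j, ?_⟩
  have h := fun F (hF : Good F) => levi_toric hF (rho_smooth.add (hs i j))
  cases i <;> cases j
  · refine h _ hG fun p hp => ?_
    simp only [Function.comp, lift_eq g hp, rho_eq hp, pot]
  · refine h _ hG.flipY fun p hp => ?_
    simp only [Function.comp, lift_chart, rho_eq hp, pot, sg_false, sg_true, pl_one, log_flip,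
      sR_neg, Lg, sR_log hp.1, sR_log hp.2]
    ring
  · refine h _ hG.flipX fun p hp => ?_
    simp only [Function.comp, lift_chart, rho_eq hp, pot, sg_false, sg_true, pl_one, log_flip,
      sR_neg, Lg, sR_log hp.1, sR_log hp.2]
    ring
  · refine h _ hG.flipX.flipY fun p hp => ?_
    simp only [Function.comp, lift_chart, rho_eq hp, pot, sg_true, pl_one, log_flip,
      sR_neg, Lg, sR_log hp.1, sR_log hp.2]
    ring

/-- the Monge-Ampere density of a toric function -/
noncomputable def dens (G : ℝ × ℝ → ℝ) (p : ℂ × ℂ) : ENNReal :=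
  ENNReal.ofReal (8 / π ^ 2 * (hdet G (Lg p) * (1 / ‖p.1‖ ^ 2) * (1 / ‖p.2‖ ^ 2)))

theorem dens_meas {G : ℝ × ℝ → ℝ} (hG : ContDiff ℝ ∞ G) : Measurable (dens G) := by
  have hL : Measurable Lg := by unfold Lg; fun_prop
  have := (hdet_smooth hG).continuous.measurable.comp hL
  exact (((this.mul (by fun_prop)).mul (by fun_prop)).const_mul _).ennreal_ofReal

theorem maSmooth_lift {g : ℝ → ℝ → ℝ} (hG : ContDiff ℝ ∞ (pot g)) :
    maSmooth (lift g) = (volume.withDensity (dens (pot g))).map (chart false false) := by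
  unfold maSmooth
  congr 1
  refine withDensity_congr_ae (ae_T.mono fun p hp => ?_)
  simp only [dens]
  rw [maDens_toric hG hp]
  filter_upwards [isOpen_T.mem_nhds hp] with q hq
  simp only [Function.comp, Pi.add_apply, lift_eq g hq, rho_eq hq, pot]

theorem dens_mass {G : ℝ × ℝ → ℝ} (h : Good G) {C : ℝ}
    (hC : ∀ p, pl 1 1 1 1 p - Real.log (1 + Real.log (1 + Real.exp (-p.2))) - C ≤ G p) :
    volume.withDensity (dens G) univ = 8 := by
  rw [withDensity_apply _ MeasurableSet.univ, Measure.restrict_univ]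
  exact (mass_toric h.smooth).trans (by rw [mass_eq h hC, mul_one])

theorem loglog_nonneg (y : ℝ) : 0 ≤ Real.log (1 + Real.log (1 + Real.exp y)) :=
  Real.log_nonneg (le_add_of_nonneg_right (Real.log_nonneg (by linarith [Real.exp_pos y])))

theorem maSmooth_mass {g : ℝ → ℝ → ℝ} (hG : Good (pot g)) {C : ℝ} (hC : ∀ σ τ, -C ≤ g σ τ) :
    maSmooth (lift g) univ = 8 := by
  rw [maSmooth_lift hG.smooth, chart_emb.map_apply, preimage_univ]
  refine dens_mass hG (C := C) fun p => ?_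
  unfold pot
  linarith [loglog_nonneg (-p.2), hC (sR p.1) (1 - sR p.2)]

theorem mass_F : volume.withDensity (dens (F 0)) univ = 8 := by
  refine dens_mass (good_F 0) (C := 0) fun p => ?_
  have h1 := f2_le_ph 0 (sR p.1) (1 - sR p.2)
  have h2 : f2 0 (1 - sR p.2) = -Real.log (1 + Real.log (1 + Real.exp (-p.2))) := by
    rw [f2, ← sR_neg, sR]; simp
  unfold F
  linarith

/-- the regularisation parameter -/
noncomputable def dl (k : ℕ) : ℝ := 1 / ((k : ℝ) + 1)

theorem dl_pos (k : ℕ) : 0 < dl k := by unfold dl; positivity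

theorem dl_anti : Antitone dl := fun a b h => by unfold dl; gcongr

theorem dl_tendsto : Tendsto dl atTop (𝓝 0) := tendsto_one_div_add_atTop_nhds_zero_nat

theorem lift_ph_smooth (k : ℕ) (i j : Bool) : ContDiff ℝ ∞ (lift (ph (dl k)) ∘ chart i j) :=
  contDiff_iff_contDiffAt.2 fun _ =>
    ph_smooth contDiffAt_const ((sg_smooth i).comp contDiff_fst).contDiffAt
      (contDiff_const.sub ((sg_smooth j).comp contDiff_snd)).contDiffAt (sg_nonneg _)
      (sub_le_self _ (sg_nonneg _))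
      (add_pos_of_nonneg_of_pos (sub_nonneg.2 (sg_le _)) (pow_pos (dl_pos k) 2))

theorem lift_ph_anti : Antitone fun k => lift (ph (dl k)) := fun _ b h _ =>
  ph_mono (sub_le_self _ (sg_nonneg _))
    (add_pos_of_nonneg_of_pos (sub_nonneg.2 (sg_le _)) (pow_pos (dl_pos b) 2))
    (pow_le_pow_left₀ (dl_pos b).le (dl_anti h) 2)

/-- the singular solution -/
noncomputable def phi (x : X) : EReal := ⨅ k, (lift (ph (dl k)) x : EReal)

theorem phi_tendsto (x : X) : Tendsto (fun k => (lift (ph (dl k)) x : EReal)) atTop (𝓝 (phi x)) :=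
  tendsto_atTop_iInf fun _ _ h => EReal.coe_le_coe_iff.2 (lift_ph_anti h x)

theorem phi_eq {x : X} {a : ℝ} (h : Tendsto (fun k => lift (ph (dl k)) x) atTop (𝓝 a)) :
    phi x = a := tendsto_nhds_unique (phi_tendsto x) (EReal.tendsto_coe.2 h)

theorem phi_ne_bot (p : ℂ × ℂ) : phi (chart false false p) ≠ ⊥ := by
  refine ne_bot_of_le_ne_bot (EReal.coe_ne_bot (Real.log (sg (c false p.1)))) (le_iInf fun k => ?_)
  refine EReal.coe_le_coe_iff.2 ((log_le_f1 ?_ (sg_le _) (sub_nonneg.2 (sg_le _))).trans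
    (f1_le_ph _ _ _))
  rw [sg_false]; positivity

theorem phi_le (x : X) : phi x ≤ (2 * Real.log (√2 + √3) + Th (0 - 2 * Real.log (√2 + √3)) : ℝ) := by
  refine (iInf_le _ 0).trans (EReal.coe_le_coe_iff.2 (Th_comb ?_ ?_))
  · have h1 := sg_nonneg x.1
    have h2 := sg_le x.1
    have h3 := sg_nonneg x.2
    have h4 := sg_le x.2
    have h5 : 0 < 1 - sg x.2 + dl 0 ^ 2 := by simp [dl]; linarith
    unfold f1
    gcongr
    · simp [dl]; linarith
    · simp [dl]; nlinarith
  · refine neg_nonpos.2 (Real.log_nonneg ?_)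
    linarith [log_le_zero (δ := dl 0) (τ := 1 - sg x.2)
      (add_pos_of_nonneg_of_pos (sub_nonneg.2 (sg_le _)) (pow_pos (dl_pos 0) 2))
      (sub_le_self _ (sg_nonneg _))]

theorem phi_T {p : ℂ × ℂ} (hp : p ∈ T) :
    phi (chart false false p) = ph 0 (sR (Lg p).1) (1 - sR (Lg p).2) := by
  refine phi_eq ?_
  simp only [lift_eq _ hp]
  exact (ph_smooth (δ := fun δ : ℝ => δ) (p := 0) contDiffAt_id contDiffAt_const contDiffAt_const
    (sR_pos _).le (sub_le_self _ (sR_pos _).le)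
    (by simpa using sR_lt _)).continuousAt.tendsto.comp dl_tendsto

theorem tau_le (w : ℂ) : 1 - 1 / (1 + ‖w‖ ^ 2) ≤ ‖w‖ ^ 2 := by
  rw [one_sub_div (by positivity), add_sub_cancel_left]
  exact div_le_self (sq_nonneg _) (le_add_of_nonneg_right (sq_nonneg _))

theorem phi_R {p : ℂ × ℂ} (hp : ‖p.2‖ ^ 2 < Real.exp (-(3 * (1 + ‖p.1‖ ^ 2)))) :
    phi (chart false false p) = f1 0 (1 / (1 + ‖p.1‖ ^ 2)) (1 - 1 / (1 + ‖p.2‖ ^ 2)) := by
  refine phi_eq ?_
  have h0 : 0 < 1 / (1 + ‖p.1‖ ^ 2) := by positivity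
  have h1 : 1 / (1 + ‖p.1‖ ^ 2) ≤ 1 := sg_le (c false p.1)
  have h2 : 0 ≤ 1 - 1 / (1 + ‖p.2‖ ^ 2) := sub_nonneg.2 (sg_le (c false p.2))
  have h3 : ContinuousAt (fun δ => f1 δ (1 / (1 + ‖p.1‖ ^ 2)) (1 - 1 / (1 + ‖p.2‖ ^ 2))) 0 := by
    refine continuousAt_const.mul (ContinuousAt.log (by fun_prop) (ne_of_gt ?_))
    refine add_pos_of_nonneg_of_pos (Real.sqrt_nonneg _) (Real.sqrt_pos.2 ?_)
    have : 0 < 1 / (1 + ‖p.2‖ ^ 2) := by positivity
    nlinarith [mul_pos h0 this]
  refine (h3.tendsto.comp dl_tendsto).congr' ?_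
  have h4 : Tendsto (fun k => ‖p.2‖ ^ 2 + dl k ^ 2) atTop (𝓝 (‖p.2‖ ^ 2 + 0 ^ 2)) :=
    (dl_tendsto.pow 2).const_add _
  filter_upwards [h4.eventually (gt_mem_nhds (by simpa using hp))] with k hk
  refine (ph_eq_f1 h0 h1 h2 (add_pos_of_nonneg_of_pos h2 (pow_pos (dl_pos k) 2)) ?_).symm
  rw [div_div_eq_mul_div, div_one]
  linarith [tau_le p.2]

theorem R_nhds {p : ℂ × ℂ} (hp : p.2 = 0) :
    ∀ᶠ q : ℂ × ℂ in 𝓝 p, ‖q.2‖ ^ 2 < Real.exp (-(3 * (1 + ‖q.1‖ ^ 2))) :=
  ContinuousAt.eventually_lt (by fun_prop) (by fun_prop) (by simp [hp, Real.exp_pos])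

theorem not_diff :
    ¬ DifferentiableAt ℝ (fun p => (phi (chart false false p)).toReal) (1, 0) := by
  intro h
  have h1 : DifferentiableAt ℝ (fun t : ℝ => ((1 : ℂ), (t : ℂ))) 0 :=
    (differentiableAt_const _).prodMk Complex.ofRealCLM.differentiableAt
  have h2 := DifferentiableAt.comp (0 : ℝ) (g := fun p => (phi (chart false false p)).toReal)
    (by simpa using h) h1
  have h3 : DifferentiableAt ℝ (fun t : ℝ => (Real.exp ((phi (chart false false (1, t))).toReal / 2)
      - √(1 - 1 / (1 + t ^ 2) + 1 / 2 * (1 - (1 - 1 / (1 + t ^ 2))) + 0 ^ 2)) * √(1 + t ^ 2)) 0 := by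
    refine ((h2.div_const 2).exp.sub (DifferentiableAt.sqrt ?_ (by norm_num))).mul
      (DifferentiableAt.sqrt (by fun_prop) (by norm_num))
    fun_prop (disch := norm_num)
  refine not_differentiableAt_abs_zero (h3.congr_of_eventuallyEq ?_)
  have h4 := (h1.continuousAt.tendsto.eventually (R_nhds (p := (1, ((0 : ℝ) : ℂ))) (by simp)))
  filter_upwards [h4] with t ht
  have h5 : 1 - 1 / (1 + t ^ 2) = t ^ 2 / (1 + t ^ 2) := by field_simp; ring
  rw [phi_R ht, EReal.toReal_coe, f1, mul_div_cancel_left₀ _ two_ne_zero]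
  simp only [norm_one, one_pow, Complex.norm_real, Real.norm_eq_abs, sq_abs, one_add_one_eq_two]
  rw [Real.exp_log, add_sub_cancel_right, ← Real.sqrt_mul (by rw [h5]; positivity), h5,
    ← Real.sqrt_sq_eq_abs]
  · congr 1; field_simp; ring
  · refine add_pos_of_nonneg_of_pos (Real.sqrt_nonneg _) (Real.sqrt_pos.2 ?_)
    rw [sub_sub_cancel, h5]; positivity

end Pool.Agent.Lib.MP_ada39e_an
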