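import Pool.Agent.Lib.MP_ada39e_an.Main

/-!
The Bedford-Taylor measures of the truncations and the non-pluripolar measure of the example.
-/

namespace Pool.Agent.Lib.MP_ada39e_an

set_option maxHeartbeats 400000

open Filter Topology MeasureTheory Set
open scoped ContDiff Real

theorem psh_phi : PSH phi :=
  ⟨⟨_, phi_ne_bot 0⟩, fun k => lift (ph (dl k)),
    fun k => smoothPSH_lift (good_F _) (lift_ph_smooth k), lift_ph_anti, phi_tendsto⟩

/-- profiles of the smooth approximants of the truncations -/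
noncomputable def gp (j k : ℕ) (σ τ : ℝ) : ℝ := tr j (dl k) (ph (dl k) σ τ)

theorem good_gp (j k : ℕ) : Good (pot (gp j k)) := good_tr _ _ (dl_pos k)

theorem gp_psh (j k : ℕ) : SmoothPSH (lift (gp j k)) :=
  smoothPSH_lift (good_gp j k) fun a b => contDiff_const.add (contDiff_const.mul
    (Th_smooth.comp (((lift_ph_smooth k a b).add contDiff_const).div_const _)))

theorem gp_mass (j k : ℕ) : maSmooth (lift (gp j k)) univ = 8 :=
  maSmooth_mass (good_gp j k) (C := j) fun _ _ =>
    le_add_of_nonneg_right (mul_nonneg (dl_pos k).le (Th_nonneg _))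

theorem gp_anti (j : ℕ) : Antitone fun k => lift (gp j k) := fun a b h x => by
  have h1 : lift (ph (dl b)) x ≤ lift (ph (dl a)) x := lift_ph_anti h x
  refine add_le_add_right ((Th_scale (dl_pos b) (dl_anti h)).trans ?_) _
  exact mul_le_mul_of_nonneg_left (Th_mono (div_le_div_of_nonneg_right (add_le_add_left h1 _)
    (dl_pos a).le)) (dl_pos a).le

theorem tr_bounds (j r : ℝ) {l : ℝ} (hl : 0 < l) :
    max r (-j) ≤ tr j l r ∧ tr j l r ≤ max r (-j) + l := by
  have h1 : l * ((r + j) / l) = r + j := by field_simp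
  have h2 := mul_le_mul_of_nonneg_left (le_Th ((r + j) / l)) hl.le
  have h3 := mul_nonneg hl.le (Th_nonneg ((r + j) / l))
  have h4 := mul_le_mul_of_nonneg_left (Th_le ((r + j) / l)) hl.le
  rw [mul_add, mul_max_of_nonneg _ _ hl.le, h1, mul_zero, mul_one] at h4
  unfold tr
  refine ⟨max_le (by linarith) (by linarith), ?_⟩
  rcases le_total (r + j) 0 with h | h
  · rw [max_eq_right h] at h4; linarith [le_max_right r (-j)]
  · rw [max_eq_left h] at h4; linarith [le_max_left r (-j)]

theorem max_ne (x : X) (a : ℝ) : max (phi x) (a : EReal) ≠ ⊤ ∧ max (phi x) (a : EReal) ≠ ⊥ :=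
  ⟨(max_lt ((phi_le x).trans_lt (EReal.coe_lt_top _)) (EReal.coe_lt_top _)).ne,
    ((EReal.bot_lt_coe a).trans_le (le_max_right _ _)).ne'⟩

theorem gp_tendsto (j : ℕ) (x : X) : Tendsto (fun k => lift (gp j k) x) atTop
    (𝓝 (max (phi x) (-(j : ℝ) : ℝ)).toReal) := by
  have h1 := (EReal.tendsto_toReal (max_ne x (-j)).1 (max_ne x (-j)).2).comp
    ((phi_tendsto x).max tendsto_const_nhds)
  have h2 : Tendsto (fun k => max (lift (ph (dl k)) x) (-(j : ℝ))) atTop
      (𝓝 (max (phi x) (-(j : ℝ) : ℝ)).toReal) := h1.congr fun k => by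
    simp only [Function.comp]
    rw [← EReal.coe_strictMono.monotone.map_max, EReal.toReal_coe]
  have h3 := h2.add dl_tendsto
  rw [add_zero] at h3
  refine tendsto_of_tendsto_of_tendsto_of_le_of_le h2 h3
    (fun k => (tr_bounds _ _ (dl_pos k)).1) fun k => (tr_bounds _ _ (dl_pos k)).2

theorem trunc_bdd (j : ℕ) : ∃ C, ∀ x, |(max (phi x) (-(j : ℝ) : ℝ)).toReal| ≤ C := by
  set A := 2 * Real.log (√2 + √3) + Th (0 - 2 * Real.log (√2 + √3))
  refine ⟨|A| + j, fun x => abs_le.2 ⟨?_, ?_⟩⟩
  · have := EReal.toReal_le_toReal (le_max_right (phi x) (-(j : ℝ) : ℝ)) (EReal.coe_ne_bot _)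
      (max_ne x _).1
    rw [EReal.toReal_coe] at this
    linarith [abs_nonneg A]
  · have := EReal.toReal_le_toReal (x := max (phi x) (-(j : ℝ) : ℝ)) (y := (|A| + j : ℝ))
      (max_le ((phi_le x).trans (EReal.coe_le_coe_iff.2
        (by linarith [le_abs_self A, Nat.cast_nonneg (α := ℝ) j])))
        (EReal.coe_le_coe_iff.2 (by linarith [abs_nonneg A, Nat.cast_nonneg (α := ℝ) j])))
      (max_ne x _).2 (EReal.coe_ne_top _)
    rwa [EReal.toReal_coe] at this

theorem d_param {H : ℝ → ℝ × ℝ → ℝ} (h : ContDiff ℝ ∞ (Function.uncurry H)) (v : ℝ × ℝ) :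
    ContDiff ℝ ∞ (Function.uncurry fun δ => d (H δ) v) :=
  (ContDiff.fderiv (f := fun x : ℝ × ℝ × ℝ => H x.1) (g := Prod.snd) (m := ∞)
    (h.comp ((contDiff_fst.comp contDiff_fst).prodMk contDiff_snd)) contDiff_snd
    (by simp)).clm_apply contDiff_const

theorem hdet_cont (q : ℝ × ℝ) : Continuous fun δ => hdet (F δ) q := by
  have h : ContDiff ℝ ∞ (Function.uncurry F) := (good_one.smooth.comp contDiff_snd).add
    (contDiff_iff_contDiffAt.2 fun x => ph_smooth contDiffAt_fst
      (sR_smooth.comp (contDiff_fst.comp contDiff_snd)).contDiffAt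
      (contDiff_const.sub (sR_smooth.comp (contDiff_snd.comp contDiff_snd))).contDiffAt
      (sR_pos _).le (sub_le_self _ (sR_pos _).le)
      (add_pos_of_pos_of_nonneg (sub_pos.2 (sR_lt _)) (sq_nonneg _)))
  have h1 := fun v v' => (d_param (d_param h v) v').continuous.comp
    (continuous_id.prodMk (continuous_const (y := q)))
  exact ((h1 _ _).mul (h1 _ _)).sub ((h1 _ _).pow 2)

/-- the part of the torus where the solution exceeds `-j` -/
def S (j : ℕ) : Set (ℂ × ℂ) := T ∩ {p | -(j : ℝ) < ph 0 (sR (Lg p).1) (1 - sR (Lg p).2)}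

theorem ph_cont (δ : ℝ) : Continuous fun q : ℝ × ℝ => ph δ (sR q.1) (1 - sR q.2) := by
  have := (good_F δ).smooth.continuous.sub good_one.smooth.continuous
  exact this.congr fun q => by simp [F]

theorem S_meas (j : ℕ) : MeasurableSet (S j) := by
  have hL : Measurable Lg := by unfold Lg; fun_prop
  exact isOpen_T.measurableSet.inter
    (measurableSet_lt measurable_const ((ph_cont 0).measurable.comp hL))

theorem dens_tendsto {j : ℕ} {p : ℂ × ℂ} (hp : p ∈ S j) :
    Tendsto (fun k => dens (pot (gp j k)) p) atTop (𝓝 (dens (F 0) p)) := by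
  refine ENNReal.tendsto_ofReal (Tendsto.const_mul _ (Tendsto.mul_const _ (Tendsto.mul_const _ ?_)))
  refine (((hdet_cont (Lg p)).tendsto 0).comp dl_tendsto).congr' ?_
  filter_upwards [dl_tendsto.eventually (gt_mem_nhds (show 0 < ph 0 (sR (Lg p).1)
    (1 - sR (Lg p).2) + j by linarith [hp.2.out]))] with k hk
  refine hdet_congr ?_
  have h1 : dl k < ph (dl k) (sR (Lg p).1) (1 - sR (Lg p).2) + j :=
    hk.trans_le (add_le_add_left (ph_mono (sub_le_self _ (sR_pos _).le) (by simpa using sR_lt _)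
      (by simpa using sq_nonneg _)) _)
  filter_upwards [continuousAt_const.eventually_lt
    ((ph_cont (dl k)).add continuous_const).continuousAt h1] with q hq
  have h2 := dl_pos k
  simp only [F, pot, gp, tr]
  rw [Th_id ((one_le_div h2).2 (show dl k ≤ ph (dl k) (sR q.1) (1 - sR q.2) + j from hq.le))]
  field_simp
  ring

theorem exists_BT (j : ℕ) : ∃ μ : Measure X,
    IsBT (fun x => (max (phi x) (-(j : ℝ) : ℝ)).toReal) μ ∧ μ univ = 8 ∧
      ∀ A, MeasurableSet A → A ⊆ S j →
        volume.withDensity (dens (F 0)) A ≤ μ (chart false false '' A) := by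
  let P : ℕ → ProbabilityMeasure X := fun k => ⟨(8 : ENNReal)⁻¹ • maSmooth (lift (gp j k)),
    ⟨by rw [Measure.smul_apply, gp_mass, smul_eq_mul, ENNReal.inv_mul_cancel] <;> simp⟩⟩
  have hP : ∀ k, maSmooth (lift (gp j k)) = (8 : ENNReal) • (P k : Measure X) := fun k => by
    simp only [P, ProbabilityMeasure.coe_mk, smul_smul]
    rw [ENNReal.mul_inv_cancel (by simp) (by simp), one_smul]
  obtain ⟨Q, n, hn, hQ⟩ := CompactSpace.tendsto_subseq P
  have h8 : ((8 : ENNReal) • (Q : Measure X)) univ = 8 := by simp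
  refine ⟨(8 : ENNReal) • (Q : Measure X), ⟨trunc_bdd j, ⟨by rw [h8]; simp⟩,
    fun k => lift (gp j (n k)), fun k => gp_psh _ _, (gp_anti j).comp_monotone hn.monotone,
    fun x => (gp_tendsto j x).comp hn.tendsto_atTop, fun g => ?_⟩, h8, fun A hA hAS => ?_⟩
  · simp only [hP, integral_smul_measure]
    exact (ProbabilityMeasure.tendsto_iff_forall_integral_tendsto.1 hQ
      (BoundedContinuousFunction.mkOfCompact g)).const_smul _
  have : IsFiniteMeasure (volume.withDensity (dens (F 0))) := ⟨by rw [mass_F]; simp⟩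
  rw [hA.measure_eq_iSup_isCompact_of_ne_top (measure_ne_top _ _)]
  refine iSup_le fun C => iSup_le fun hCA => iSup_le fun hC => ?_
  refine le_trans ?_ (measure_mono (image_mono hCA))
  have h1 := ProbabilityMeasure.limsup_measure_closed_le_of_tendsto hQ
    (hC.image chart_open.continuous).isClosed
  have h2 : ∀ k, ∫⁻ p in C, dens (pot (gp j (n k))) p =
      8 * (P (n k) : Measure X) (chart false false '' C) := fun k => by
    rw [← smul_eq_mul, ← Measure.smul_apply, ← hP, maSmooth_lift (good_gp _ _).smooth,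
      chart_emb.map_apply, preimage_image_eq _ chart_emb.injective,
      withDensity_apply _ hC.measurableSet]
  rw [withDensity_apply _ hC.measurableSet,
    setLIntegral_congr_fun hC.measurableSet (g := fun p => liminf
      (fun k => dens (pot (gp j (n k))) p) atTop) fun p hp =>
      (((dens_tendsto (hAS (hCA hp))).comp hn.tendsto_atTop).liminf_eq).symm]
  refine (lintegral_liminf_le fun k => dens_meas (good_gp _ _).smooth).trans ?_
  refine le_trans liminf_le_limsup ?_
  simp only [h2]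
  rw [ENNReal.limsup_const_mul_of_ne_top (by simp), Measure.smul_apply, smul_eq_mul]
  exact mul_le_mul_right h1 _

theorem npma_phi : IsNPMA phi ((volume.withDensity (dens (F 0))).map (chart false false)) := by
  choose μ h1 h2 h3 using exists_BT
  refine ⟨μ, h1, fun B hB => ?_⟩
  set ν := volume.withDensity (dens (F 0)) with hν
  have hm : ν univ = 8 := mass_F
  have : IsFiniteMeasure ν := ⟨by rw [hm]; simp⟩
  have h4 : ∀ A : Set (ℂ × ℂ), Tendsto (fun j => ν (A ∩ S j)) atTop (𝓝 (ν A)) := fun A => by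
    have h5 : Monotone fun j => A ∩ S j := fun a b hab p hp =>
      ⟨hp.1, hp.2.1, (neg_le_neg (Nat.cast_le.2 hab)).trans_lt hp.2.2.out⟩
    have h6 : ν (⋃ j, A ∩ S j) = ν A := by
      refine measure_congr ((withDensity_absolutelyContinuous _ _).ae_le (ae_T.mono fun p hp => ?_))
      refine propext ⟨fun h => (mem_iUnion.1 h).choose_spec.1, fun h => ?_⟩
      obtain ⟨j, hj⟩ := exists_nat_gt (-ph 0 (sR (Lg p).1) (1 - sR (Lg p).2))
      exact mem_iUnion.2 ⟨j, h, hp, neg_lt.1 hj⟩
    exact h6 ▸ tendsto_measure_iUnion_atTop h5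
  have hB' := chart_emb.measurable hB
  rw [chart_emb.map_apply]
  have h7 : ν (chart false false ⁻¹' B) = 8 - ν (chart false false ⁻¹' B)ᶜ := by
    rw [← hm, ← measure_compl hB'.compl (measure_ne_top _ _), compl_compl]
  have h9 := ENNReal.Tendsto.sub (tendsto_const_nhds (x := (8 : ENNReal)))
    (h4 (chart false false ⁻¹' B)ᶜ) (Or.inl (by simp))
  rw [← h7] at h9
  refine tendsto_of_tendsto_of_tendsto_of_le_of_le (h4 _) h9 (fun j => ?_) fun j => ?_
  · refine (h3 j _ (hB'.inter (S_meas j)) inter_subset_right).trans (measure_mono ?_)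
    rintro _ ⟨p, hp, rfl⟩
    refine ⟨hp.1, ?_⟩
    change _ < phi _
    rw [phi_T hp.2.1]
    exact EReal.coe_lt_coe_iff.2 hp.2.2
  · have := (h1 j).2.1
    refine (measure_mono inter_subset_left).trans ?_
    have h8 : μ j B = 8 - μ j Bᶜ := by
      rw [← h2 j, ← measure_compl hB.compl (measure_ne_top _ _), compl_compl]
    rw [h8]
    refine tsub_le_tsub_left ((h3 j _ (hB'.compl.inter (S_meas j)) inter_subset_right).trans
      (measure_mono ?_)) _
    rintro _ ⟨p, hp, rfl⟩
    exact hp.1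

/-- the density in the affine chart -/
noncomputable def ft (p : ℂ × ℂ) : ℝ :=
  if p.2 = 0 then (1 + ‖p.1‖ ^ 2) / 2 else
    hdet (F 0) (Lg p) * ((1 + ‖p.1‖ ^ 2) ^ 2 * (1 + ‖p.2‖ ^ 2) ^ 2 / (‖p.1‖ ^ 2 * ‖p.2‖ ^ 2))

theorem ft_nonneg (p : ℂ × ℂ) : 0 ≤ ft p := by
  have := hdet_F_pos (Lg p)
  unfold ft; split_ifs <;> positivity

theorem ft_pos {p : ℂ × ℂ} (hp : p.1 ≠ 0) : 0 < ft p := by
  have := hdet_F_pos (Lg p)
  unfold ft; split_ifs <;> positivity

theorem ft_meas : Measurable ft := by
  have hL : Measurable Lg := by unfold Lg; fun_prop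
  exact Measurable.ite (measurable_snd (measurableSet_singleton 0)) (by fun_prop)
    (((hdet_smooth (good_F 0).smooth).continuous.measurable.comp hL).mul (by fun_prop))

theorem ft_smooth {p : ℂ × ℂ} (hp : p.1 ≠ 0) : ContDiffAt ℝ ∞ ft p := by
  have h1 : ContDiff ℝ ∞ fun p : ℂ × ℂ => ‖p.1‖ ^ 2 := (contDiff_norm_sq ℝ).comp contDiff_fst
  have h2 : ContDiff ℝ ∞ fun p : ℂ × ℂ => ‖p.2‖ ^ 2 := (contDiff_norm_sq ℝ).comp contDiff_snd
  by_cases hw : p.2 = 0
  · have h3 : ContDiff ℝ ∞ fun p : ℂ × ℂ => (1 + ‖p.1‖ ^ 2) * (1 + ‖p.2‖ ^ 2) ^ 2 /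
        (2 * (1 + (1 + ‖p.1‖ ^ 2) * ‖p.2‖ ^ 2) ^ 2) :=
      ((contDiff_const.add h1).mul ((contDiff_const.add h2).pow 2)).div
        (contDiff_const.mul ((contDiff_const.add ((contDiff_const.add h1).mul h2)).pow 2))
        fun p => by positivity
    refine h3.contDiffAt.congr_of_eventuallyEq ?_
    filter_upwards [R_nhds hw, (isOpen_ne_fun continuous_fst continuous_const).mem_nhds hp]
      with q hq hq1
    by_cases hq2 : q.2 = 0
    · simp [ft, hq2]
    have hs := pow_pos (norm_pos_iff.2 hq1) 2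
    have ht := pow_pos (norm_pos_iff.2 hq2) 2
    have h4 : F 0 =ᶠ[𝓝 (Lg q)] F1 0 := by
      have h5 : Real.exp (Lg q).2 < Real.exp (-(3 * (1 + Real.exp (Lg q).1))) := by
        rwa [Lg, Real.exp_log hs, Real.exp_log ht]
      filter_upwards [ContinuousAt.eventually_lt (f := fun r : ℝ × ℝ => Real.exp r.2)
        (g := fun r => Real.exp (-(3 * (1 + Real.exp r.1)))) (by fun_prop) (by fun_prop) h5]
        with r hr
      rw [F, F1, ph_eq_f1 (sR_pos _) (sR_lt _).le (sub_nonneg.2 (sR_lt _).le)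
        (by simpa using sR_lt _)]
      have h6 : 1 - sR r.2 ≤ Real.exp r.2 := by
        rw [sR, one_sub_div (by positivity), add_sub_cancel_left]
        exact div_le_self (Real.exp_pos _).le (by linarith [Real.exp_pos r.2])
      rw [show 3 / sR r.1 = 3 * (1 + Real.exp r.1) by rw [sR, div_div_eq_mul_div, div_one]]
      linarith
    rw [ft, if_neg hq2, hdet_congr h4, hdet_F1, Lg, Real.exp_log hs, Real.exp_log ht]
    field_simp
  · have h3 : ContDiffAt ℝ ∞ (fun p : ℂ × ℂ => hdet (F 0) (Lg p) *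
        ((1 + ‖p.1‖ ^ 2) ^ 2 * (1 + ‖p.2‖ ^ 2) ^ 2 / (‖p.1‖ ^ 2 * ‖p.2‖ ^ 2))) p :=
      ((hdet_smooth (good_F 0).smooth).contDiffAt.comp p (Lg_smooth ⟨hp, hw⟩)).mul
        ((((contDiff_const.add h1).pow 2).mul ((contDiff_const.add h2).pow 2)).contDiffAt.div
          (h1.mul h2).contDiffAt (by positivity))
    refine h3.congr_of_eventuallyEq ?_
    filter_upwards [(isOpen_ne_fun continuous_snd continuous_const).mem_nhds hw] with q hq
    exact if_neg hq

/-- the density on `X` -/
noncomputable def fX : X → ℝ := Function.extend (chart false false) ft 0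

theorem fX_chart : fX ∘ chart false false = ft := Function.extend_comp chart_emb.injective _ _

theorem fX_meas : Measurable fX := chart_emb.measurable_extend ft_meas measurable_zero

theorem fX_nonneg (x : X) : 0 ≤ fX x := by
  classical
  unfold fX
  rw [Function.extend_def]
  split_ifs
  exacts [ft_nonneg _, le_rfl]

theorem pot_zero : pot (fun _ _ => 0) = pl 1 1 1 1 := by ext; simp [pot]

theorem mass_zero : maSmooth 0 univ = 8 :=
  maSmooth_mass (g := fun _ _ => 0) (pot_zero ▸ good_one) (C := 0) (by simp)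

theorem density_eq : (maSmooth 0).withDensity (fun x => ENNReal.ofReal (fX x)) =
    (volume.withDensity (dens (F 0))).map (chart false false) := by
  have h1 : maSmooth 0 = (volume.withDensity (dens (pl 1 1 1 1))).map (chart false false) := by
    rw [← pot_zero]
    exact maSmooth_lift (g := fun _ _ => 0) (pot_zero ▸ good_one.smooth)
  ext B hB
  rw [withDensity_apply _ hB, h1, setLIntegral_map hB fX_meas.ennreal_ofReal chart_emb.measurable,
    chart_emb.map_apply,
    withDensity_apply _ (chart_emb.measurable hB),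
    setLIntegral_withDensity_eq_setLIntegral_mul _ (dens_meas good_one.smooth)
      (g := fun p => ENNReal.ofReal (fX (chart false false p)))
      (fX_meas.comp chart_emb.measurable).ennreal_ofReal (chart_emb.measurable hB)]
  refine lintegral_congr_ae (ae_restrict_of_ae (ae_T.mono fun p hp => ?_))
  have hs := pow_pos (norm_pos_iff.2 hp.1) 2
  have ht := pow_pos (norm_pos_iff.2 hp.2) 2
  simp only [Pi.mul_apply, dens, show fX (chart false false p) = ft p from congrFun fX_chart p]
  rw [← ENNReal.ofReal_mul' (ft_nonneg p), ft, if_neg hp.2, hdet_one, Lg, Real.exp_log hs,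
    Real.exp_log ht]
  congr 1
  field_simp

end Pool.Agent.Lib.MP_ada39e_an
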