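import Pool.Agent.Lib.MP_ada39e_an.Levi

/-!
The profile of the example and its convexity.
-/

namespace Pool.Agent.Lib.MP_ada39e_an

set_option maxHeartbeats 400000

open Filter Topology MeasureTheory Set
open scoped ContDiff Real

theorem exists_Th : ∃ Θ : ℝ → ℝ, ContDiff ℝ ∞ Θ ∧ (∀ r ≤ -1, Θ r = 0) ∧ (∀ r ≥ 1, Θ r = r) ∧
    (∀ r, deriv Θ r ∈ Icc (0 : ℝ) 1) ∧ Monotone (deriv Θ) := by
  let P : ℝ → ℝ := fun r => ∫ t in (0 : ℝ)..r, Real.smoothTransition t
  have hc := Real.smoothTransition.continuous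
  have hP : ∀ r, HasDerivAt P (Real.smoothTransition r) r := fun r =>
    (hc.integral_hasStrictDerivAt 0 r).hasDerivAt
  have h0 : 0 ≤ P 1 := intervalIntegral.integral_nonneg zero_le_one
    fun t _ => Real.smoothTransition.nonneg t
  have h1 : P 1 ≤ 1 := by
    simpa using intervalIntegral.integral_mono_on (μ := volume) zero_le_one (hc.intervalIntegrable 0 1)
      (intervalIntegrable_const (c := (1 : ℝ))) fun t _ => Real.smoothTransition.le_one t
  have h2 : ∀ r, HasDerivAt (fun r => P (r + (1 - P 1))) (Real.smoothTransition (r + (1 - P 1))) r :=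
    fun r => (hP _).comp_add_const r _
  have h3 : deriv (fun r => P (r + (1 - P 1))) = fun r => Real.smoothTransition (r + (1 - P 1)) :=
    funext fun r => (h2 r).deriv
  refine ⟨fun r => P (r + (1 - P 1)), ?_, fun r hr => ?_, fun r hr => ?_, fun r => ?_, ?_⟩
  · rw [contDiff_infty_iff_deriv, h3]
    exact ⟨fun r => (h2 r).differentiableAt,
      Real.smoothTransition.contDiff.comp (contDiff_id.add contDiff_const)⟩
  · simp only [P]
    rw [intervalIntegral.integral_congr (g := fun _ => 0)]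
    · simp
    · intro t ht
      rw [uIcc_of_ge (by change r + (1 - P 1) ≤ 0; linarith)] at ht
      exact Real.smoothTransition.zero_of_nonpos ht.2
  · have h4 : ∫ t in (1 : ℝ)..(r + (1 - P 1)), Real.smoothTransition t = r - P 1 := by
      rw [intervalIntegral.integral_congr (g := fun _ => 1)]
      · simp; ring
      · intro t ht
        rw [uIcc_of_le (by linarith)] at ht
        exact Real.smoothTransition.one_of_one_le ht.1
    have h5 := intervalIntegral.integral_add_adjacent_intervals (μ := volume)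
      (hc.intervalIntegrable 0 1)
      (hc.intervalIntegrable 1 (r + (1 - P 1)))
    rw [h4] at h5
    change P 1 + _ = P _ at h5
    simp only
    linarith
  · rw [h3]; exact ⟨Real.smoothTransition.nonneg _, Real.smoothTransition.le_one _⟩
  · rw [h3]; exact fun a b hab => Real.smoothTransition.monotone (by linarith)

/-- a smooth convex function equal to the positive part outside `[-1, 1]` -/
noncomputable def Th : ℝ → ℝ := exists_Th.choose

theorem Th_smooth : ContDiff ℝ ∞ Th := exists_Th.choose_spec.1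

theorem Th_zero {r : ℝ} (h : r ≤ -1) : Th r = 0 := exists_Th.choose_spec.2.1 r h

theorem Th_id {r : ℝ} (h : 1 ≤ r) : Th r = r := exists_Th.choose_spec.2.2.1 r h

theorem Th_deriv (r : ℝ) : deriv Th r ∈ Icc (0 : ℝ) 1 := exists_Th.choose_spec.2.2.2.1 r

theorem Th_deriv_mono : Monotone (deriv Th) := exists_Th.choose_spec.2.2.2.2

theorem Th_diff : Differentiable ℝ Th := Th_smooth.differentiable (by simp)

theorem Th_mono : Monotone Th := monotone_of_deriv_nonneg Th_diff fun r => (Th_deriv r).1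

theorem Th_anti : Antitone fun r => Th r - r :=
  antitone_of_deriv_nonpos (Th_diff.sub differentiable_id) fun r => by
    rw [((Th_diff r).hasDerivAt.fun_sub (hasDerivAt_id' r)).deriv]
    linarith [(Th_deriv r).2]

theorem Th_nonneg (r : ℝ) : 0 ≤ Th r := by
  rcases le_total r (-1) with h | h
  · exact (Th_zero h).ge
  · exact (Th_zero le_rfl).ge.trans (Th_mono h)

theorem le_Th (r : ℝ) : r ≤ Th r := by
  rcases le_total r 1 with h | h
  · have := Th_anti h
    simp only [Th_id le_rfl] at this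
    linarith
  · exact (Th_id h).ge

theorem Th_le (r : ℝ) : Th r ≤ max r 0 + 1 := by
  rcases le_total r 1 with h | h
  · linarith [Th_mono h, Th_id le_rfl, le_max_right r 0]
  · linarith [Th_id h, le_max_left r 0]

theorem Th_comb {a a' b b' : ℝ} (ha : a ≤ a') (hb : b ≤ b') :
    a + Th (b - a) ≤ a' + Th (b' - a') := by
  have h1 := Th_anti (show b - a' ≤ b - a by linarith)
  have h2 := Th_mono (show b - a' ≤ b' - a' by linarith)
  simp only at h1
  linarith

theorem Th_scale {l l' r : ℝ} (hl : 0 < l) (h : l ≤ l') : l * Th (r / l) ≤ l' * Th (r / l') := by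
  have hl' : 0 < l' := hl.trans_le h
  rcases le_total 0 r with hr | hr
  · have h1 := Th_anti (div_le_div_of_nonneg_left hr hl h)
    have h2 : l * (r / l) = r := by field_simp
    have h3 : l' * (r / l') = r := by field_simp
    simp only at h1
    nlinarith [le_Th (r / l), le_Th (r / l')]
  · have h1 := Th_mono (show r / l ≤ r / l' by
      rw [div_le_div_iff₀ hl hl']; nlinarith)
    nlinarith [Th_nonneg (r / l)]

/-- the Pogorelov part -/
noncomputable def f1 (δ σ τ : ℝ) : ℝ :=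
  2 * Real.log (√(τ + δ ^ 2) + √(τ + σ * (1 - τ) + δ ^ 2))

/-- the full mass part -/
noncomputable def f2 (δ τ : ℝ) : ℝ := -Real.log (1 - Real.log ((τ + δ ^ 2) / (1 + δ ^ 2)))

/-- the regularised maximum -/
noncomputable def ph (δ σ τ : ℝ) : ℝ := f1 δ σ τ + Th (f2 δ τ - f1 δ σ τ)

/-- smooth truncation -/
noncomputable def tr (j l r : ℝ) : ℝ := -j + l * Th ((r + j) / l)

theorem log_le_zero {δ τ : ℝ} (h : 0 < τ + δ ^ 2) (h1 : τ ≤ 1) :
    Real.log ((τ + δ ^ 2) / (1 + δ ^ 2)) ≤ 0 :=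
  Real.log_nonpos (by positivity) ((div_le_one (by positivity)).2 (by linarith))

section smooth

variable {E : Type} [NormedAddCommGroup E] [NormedSpace ℝ E] {δ σ τ : E → ℝ} {p : E}

theorem f1_smooth (hδ : ContDiffAt ℝ ∞ δ p) (hσ : ContDiffAt ℝ ∞ σ p) (hτ : ContDiffAt ℝ ∞ τ p)
    (h0 : 0 ≤ σ p) (h1 : τ p ≤ 1) (h : 0 < τ p + δ p ^ 2) :
    ContDiffAt ℝ ∞ (fun p => f1 (δ p) (σ p) (τ p)) p := by
  have h2 : 0 < τ p + σ p * (1 - τ p) + δ p ^ 2 := by nlinarith [mul_nonneg h0 (sub_nonneg.2 h1)]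
  refine contDiffAt_const.mul (ContDiffAt.log (((hτ.add (hδ.pow 2)).sqrt h.ne').add
    (((hτ.add (hσ.mul (contDiffAt_const.sub hτ))).add (hδ.pow 2)).sqrt h2.ne')) ?_)
  positivity

theorem ph_smooth (hδ : ContDiffAt ℝ ∞ δ p) (hσ : ContDiffAt ℝ ∞ σ p) (hτ : ContDiffAt ℝ ∞ τ p)
    (h0 : 0 ≤ σ p) (h1 : τ p ≤ 1) (h : 0 < τ p + δ p ^ 2) :
    ContDiffAt ℝ ∞ (fun p => ph (δ p) (σ p) (τ p)) p := by
  have h2 := f1_smooth hδ hσ hτ h0 h1 h
  have h3 : ContDiffAt ℝ ∞ (fun p => f2 (δ p) (τ p)) p := by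
    have h4 : ContDiffAt ℝ ∞ (fun p => (τ p + δ p ^ 2) / (1 + δ p ^ 2)) p :=
      (hτ.add (hδ.pow 2)).div (contDiffAt_const.add (hδ.pow 2)) (by positivity)
    refine ((contDiffAt_const.sub (h4.log (by positivity))).log ?_).neg
    linarith [log_le_zero h h1]
  exact h2.add (Th_smooth.contDiffAt.comp p (h3.sub h2))

end smooth

theorem ph_mono {δ δ' σ τ : ℝ} (h1 : τ ≤ 1) (h : 0 < τ + δ ^ 2) (hδ : δ ^ 2 ≤ δ' ^ 2) :
    ph δ σ τ ≤ ph δ' σ τ := by
  refine Th_comb ?_ ?_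
  · unfold f1; gcongr
  · have h2 := log_le_zero (δ := δ') (by linarith) h1
    have h3 : (τ + δ ^ 2) / (1 + δ ^ 2) ≤ (τ + δ' ^ 2) / (1 + δ' ^ 2) := by
      rw [div_le_div_iff₀ (by positivity) (by positivity)]; nlinarith
    unfold f2; gcongr; linarith

theorem log_le_f1 {δ σ τ : ℝ} (h0 : 0 < σ) (h0' : σ ≤ 1) (h1 : 0 ≤ τ) :
    Real.log σ ≤ f1 δ σ τ := by
  have h2 : √σ ≤ √(τ + δ ^ 2) + √(τ + σ * (1 - τ) + δ ^ 2) :=
    le_add_of_nonneg_of_le (Real.sqrt_nonneg _) (Real.sqrt_le_sqrt (by nlinarith [sq_nonneg δ]))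
  have h3 := Real.log_le_log (Real.sqrt_pos.2 h0) h2
  rw [Real.log_sqrt h0.le] at h3
  unfold f1; linarith

theorem f1_le_ph (δ σ τ : ℝ) : f1 δ σ τ ≤ ph δ σ τ := le_add_of_nonneg_right (Th_nonneg _)

theorem f2_le_ph (δ σ τ : ℝ) : f2 δ τ ≤ ph δ σ τ := by
  unfold ph; linarith [le_Th (f2 δ τ - f1 δ σ τ)]

theorem ph_eq_f1 {δ σ τ : ℝ} (h0 : 0 < σ) (h0' : σ ≤ 1) (h1 : 0 ≤ τ) (h : 0 < τ + δ ^ 2)
    (h2 : τ + δ ^ 2 < Real.exp (-(3 / σ))) : ph δ σ τ = f1 δ σ τ := by
  have h3 := log_le_f1 (δ := δ) h0 h0' h1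
  have h4 : Real.log ((τ + δ ^ 2) / (1 + δ ^ 2)) ≤ -(3 / σ) := by
    rw [Real.log_le_iff_le_exp (by positivity)]
    exact (div_le_self h.le (by nlinarith [sq_nonneg δ])).trans h2.le
  have h5 : 1 - Real.log σ ≤ Real.log (1 - Real.log ((τ + δ ^ 2) / (1 + δ ^ 2))) := by
    have h6 : 0 < 3 / σ := by positivity
    rw [Real.le_log_iff_exp_le (by linarith), Real.exp_sub, Real.exp_log h0]
    have h7 : Real.exp 1 / σ ≤ 3 / σ := by
      gcongr; linarith [Real.exp_one_lt_d9]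
    linarith
  rw [ph, Th_zero (by unfold f2; linarith), add_zero]

/-- logistic function -/
noncomputable def sR (x : ℝ) : ℝ := 1 / (1 + Real.exp x)

theorem sR_pos (x : ℝ) : 0 < sR x := by unfold sR; positivity

theorem sR_lt (x : ℝ) : sR x < 1 := (div_lt_one (by positivity)).2 (by linarith [Real.exp_pos x])

theorem sR_smooth : ContDiff ℝ ∞ sR :=
  contDiff_const.div (by fun_prop) fun x => by positivity

theorem sR_neg (x : ℝ) : sR (-x) = 1 - sR x := by
  unfold sR; rw [Real.exp_neg]; field_simp; ring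

theorem pl_add {c0 c1 c2 c3 : ℝ} (q : ℝ × ℝ) {A : ℝ} (hA : 0 < A)
    (h : po c0 c1 c2 c3 q = po 1 1 1 1 q * A) : pl c0 c1 c2 c3 q = pl 1 1 1 1 q + Real.log A := by
  rw [pl, h, Real.log_mul (po_one_pos q).ne' hA.ne', pl]

theorem good_one : Good (pl 1 1 1 1) :=
  pl_good po_one_pos zero_le_one zero_le_one zero_le_one zero_le_one

/-- first convex piece -/
noncomputable def F1 (δ : ℝ) (q : ℝ × ℝ) : ℝ := pl 1 1 1 1 q + f1 δ (sR q.1) (1 - sR q.2)

/-- second convex piece -/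
noncomputable def F2 (δ : ℝ) (q : ℝ × ℝ) : ℝ := pl 1 1 1 1 q + f2 δ (1 - sR q.2)

/-- the convex potential -/
noncomputable def F (δ : ℝ) (q : ℝ × ℝ) : ℝ := pl 1 1 1 1 q + ph δ (sR q.1) (1 - sR q.2)

theorem good_F1 (δ : ℝ) : Good (F1 δ) ∧ (δ = 0 → ∀ p v, v ≠ 0 → 0 < d (d (F1 δ) v) v p) := by
  let θ : ℝ → ℝ := fun r => 2 * Real.log (1 + Real.exp (r / 2))
  have hθ : ContDiff ℝ ∞ θ := contDiff_const.mul (ContDiff.log (by fun_prop) fun r => by positivity)
  have h1 : deriv θ = fun r => 1 - sR (r / 2) := funext fun r => by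
    have := (((((hasDerivAt_id' r).div_const 2).exp).const_add 1).log (by positivity)).const_mul 2
    rw [this.deriv, sR]; field_simp; ring
  have h2 : Monotone (deriv θ) := fun a b hab => by
    simp only [h1, sR]; gcongr
  have ha : ∀ q, 0 < po (δ ^ 2) (δ ^ 2) (1 + δ ^ 2) (1 + δ ^ 2) q := fun q => by
    unfold po; positivity
  have hb : ∀ q, 0 < po (1 + δ ^ 2) (δ ^ 2) (1 + δ ^ 2) (1 + δ ^ 2) q := fun q => by
    unfold po; positivity
  have ga := pl_good ha (by positivity) (by positivity) (by positivity) (by positivity)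
  have gb := pl_good hb (by positivity) (by positivity) (by positivity) (by positivity)
  have h3 : F1 δ = fun q => pl (δ ^ 2) (δ ^ 2) (1 + δ ^ 2) (1 + δ ^ 2) q +
      θ (pl (1 + δ ^ 2) (δ ^ 2) (1 + δ ^ 2) (1 + δ ^ 2) q -
        pl (δ ^ 2) (δ ^ 2) (1 + δ ^ 2) (1 + δ ^ 2) q) := by
    ext q
    have hA : 0 < 1 - sR q.2 + δ ^ 2 := by nlinarith [sR_lt q.2, sq_nonneg δ]
    have hB : 0 < 1 - sR q.2 + sR q.1 * (1 - (1 - sR q.2)) + δ ^ 2 := by
      nlinarith [mul_pos (sR_pos q.1) (sR_pos q.2)]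
    rw [pl_add (c0 := δ ^ 2) (c1 := δ ^ 2) (c2 := 1 + δ ^ 2) (c3 := 1 + δ ^ 2) q hA
      (by unfold po sR; field_simp; ring),
      pl_add (c0 := 1 + δ ^ 2) (c1 := δ ^ 2) (c2 := 1 + δ ^ 2) (c3 := 1 + δ ^ 2) q hB
      (by unfold po sR; field_simp; ring), F1, f1, add_assoc (pl 1 1 1 1 q)]
    congr 1
    have hu := Real.sqrt_pos.2 hA
    have hv := Real.sqrt_pos.2 hB
    change _ = _ + 2 * Real.log (1 + Real.exp (_ / 2))
    rw [add_sub_add_left_eq_sub, sub_div, ← Real.log_sqrt hA.le, ← Real.log_sqrt hB.le,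
      Real.exp_sub, Real.exp_log hu, Real.exp_log hv, one_add_div hu.ne',
      Real.log_div (by positivity) hu.ne', Real.log_sqrt hA.le]
    ring
  rw [h3]
  refine ⟨ga.comb gb (fun _ => hθ.contDiffAt) (fun p => ?_) fun p => h2.deriv_nonneg, ?_⟩
  · rw [h1]; exact ⟨sub_nonneg.2 (sR_lt _).le, sub_le_self _ (sR_pos _).le⟩
  · rintro rfl p v hv
    rw [comb_dd ga.smooth gb.smooth fun _ => hθ.contDiffAt]
    have h4 : 0 < d (d (pl (1 + 0 ^ 2) (0 ^ 2) (1 + 0 ^ 2) (1 + 0 ^ 2)) v) v p := by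
      rw [pl_dd_self hb]
      refine div_pos ?_ (pow_pos (hb p) 2)
      by_cases h1 : v.1 = 0
      · have h2 : v.2 ≠ 0 := fun h2 => hv (Prod.ext h1 h2)
        positivity
      · positivity
    set r := pl (1 + 0 ^ 2) (0 ^ 2) (1 + 0 ^ 2) (1 + 0 ^ 2) p -
      pl (0 ^ 2) (0 ^ 2) (1 + 0 ^ 2) (1 + 0 ^ 2) p
    have h5 : 0 < deriv θ r := by rw [h1]; exact sub_pos.2 (sR_lt _)
    have h6 : 0 ≤ 1 - deriv θ r := by rw [h1]; linarith [sR_pos (r / 2)]
    nlinarith [mul_pos h5 h4, mul_nonneg h6 (ga.psd p v),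
      mul_nonneg (h2.deriv_nonneg (x := r)) (mul_self_nonneg
        (d (pl (1 + 0 ^ 2) (0 ^ 2) (1 + 0 ^ 2) (1 + 0 ^ 2)) v p -
          d (pl (0 ^ 2) (0 ^ 2) (1 + 0 ^ 2) (1 + 0 ^ 2)) v p))]

theorem good_F2 (δ : ℝ) : Good (F2 δ) ∧ (δ = 0 → ∀ p v, v ≠ 0 → 0 < d (d (F2 δ) v) v p) := by
  let θ : ℝ → ℝ := fun r => -Real.log (1 - r)
  have hθ : ∀ r ≤ 0, ContDiffAt ℝ ∞ θ r := fun r hr =>
    ((contDiffAt_const.sub contDiffAt_id).log (by change 1 - r ≠ 0; linarith)).neg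
  have h1 : ∀ r < 1, deriv θ r = (1 - r)⁻¹ := fun r hr => by
    have := (((hasDerivAt_id' r).const_sub 1).log (by linarith)).fun_neg
    rw [this.deriv]; ring
  have h2 : ∀ r < 1, 0 ≤ deriv (deriv θ) r := fun r hr => by
    have h3 : deriv θ =ᶠ[𝓝 r] fun r => (1 - r)⁻¹ := (Iio_mem_nhds hr : Iio 1 ∈ 𝓝 r) |>
      fun h => eventually_of_mem h h1
    rw [h3.deriv_eq, (((hasDerivAt_id' r).const_sub 1).fun_inv (by linarith)).deriv]
    simp [sq_nonneg]
  have hb : ∀ q, 0 < po (δ ^ 2 / (1 + δ ^ 2)) (δ ^ 2 / (1 + δ ^ 2)) 1 1 q := fun q => by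
    unfold po; positivity
  have gb := pl_good hb (by positivity) (by positivity) (by positivity) (by positivity)
  have hA : ∀ q : ℝ × ℝ, 0 < 1 - sR q.2 + δ ^ 2 := fun q => by nlinarith [sR_lt q.2, sq_nonneg δ]
  have h4 : ∀ q, pl (δ ^ 2 / (1 + δ ^ 2)) (δ ^ 2 / (1 + δ ^ 2)) 1 1 q - pl 1 1 1 1 q =
      Real.log ((1 - sR q.2 + δ ^ 2) / (1 + δ ^ 2)) := fun q => by
    rw [pl_add (c0 := δ ^ 2 / (1 + δ ^ 2)) (c1 := δ ^ 2 / (1 + δ ^ 2)) (c2 := 1) (c3 := 1) q
      (div_pos (hA q) (by positivity : 0 < 1 + δ ^ 2)) (by unfold po sR; field_simp; ring)]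
    ring
  have h5 : ∀ q, pl (δ ^ 2 / (1 + δ ^ 2)) (δ ^ 2 / (1 + δ ^ 2)) 1 1 q - pl 1 1 1 1 q ≤ 0 :=
    fun q => (h4 q).trans_le (log_le_zero (hA q) (sub_le_self _ (sR_pos _).le))
  have h3 : F2 δ = fun q => pl 1 1 1 1 q +
      θ (pl (δ ^ 2 / (1 + δ ^ 2)) (δ ^ 2 / (1 + δ ^ 2)) 1 1 q - pl 1 1 1 1 q) := by
    ext q
    rw [h4]; rfl
  rw [h3]
  refine ⟨good_one.comb gb (fun p => hθ _ (h5 p)) (fun p => ?_)
    fun p => h2 _ ((h5 p).trans_lt one_pos), ?_⟩
  · rw [h1 _ ((h5 p).trans_lt one_pos)]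
    exact ⟨inv_nonneg.2 (by linarith [h5 p]), inv_le_one_of_one_le₀ (by linarith [h5 p])⟩
  · intro h0 p v hv
    rw [comb_dd good_one.smooth gb.smooth fun p => hθ _ (h5 p)]
    have h6 : pl (δ ^ 2 / (1 + δ ^ 2)) (δ ^ 2 / (1 + δ ^ 2)) 1 1 p - pl 1 1 1 1 p < 0 := by
      rw [h4]
      refine Real.log_neg (div_pos (hA p) (by positivity)) ?_
      rw [h0]
      simpa using sR_pos p.2
    set r := pl (δ ^ 2 / (1 + δ ^ 2)) (δ ^ 2 / (1 + δ ^ 2)) 1 1 p - pl 1 1 1 1 p
    have h7 : 0 ≤ deriv θ r := by rw [h1 _ (by linarith)]; exact inv_nonneg.2 (by linarith)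
    have h8 : 0 < 1 - deriv θ r := by
      rw [h1 _ (by linarith)]; exact sub_pos.2 (inv_lt_one_of_one_lt₀ (by linarith))
    nlinarith [mul_pos h8 (pl_one_pd v p hv), mul_nonneg h7 (gb.psd p v),
      mul_nonneg (h2 r (by linarith)) (mul_self_nonneg
        (d (pl (δ ^ 2 / (1 + δ ^ 2)) (δ ^ 2 / (1 + δ ^ 2)) 1 1) v p - d (pl 1 1 1 1) v p))]

theorem F_eq (δ : ℝ) : F δ = fun q => F1 δ q + Th (F2 δ q - F1 δ q) := by
  ext q
  simp only [F, F1, F2, ph, add_sub_add_left_eq_sub, add_assoc]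

theorem good_F (δ : ℝ) : Good (F δ) := by
  rw [F_eq]
  exact (good_F1 δ).1.comb (good_F2 δ).1 (fun _ => Th_smooth.contDiffAt) (fun _ => Th_deriv _)
    fun _ => Th_deriv_mono.deriv_nonneg

theorem hdet_F_pos (p : ℝ × ℝ) : 0 < hdet (F 0) p := by
  refine hdet_pos (good_F 0).smooth.contDiffAt fun v hv => ?_
  rw [F_eq, comb_dd (good_F1 0).1.smooth (good_F2 0).1.smooth fun _ => Th_smooth.contDiffAt]
  have h1 := (good_F1 0).2 rfl p v hv
  have h2 := (good_F2 0).2 rfl p v hv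
  have h3 := Th_deriv (F2 0 p - F1 0 p)
  have h4 := mul_nonneg (Th_deriv_mono.deriv_nonneg (x := F2 0 p - F1 0 p))
    (mul_self_nonneg (d (F2 0) v p - d (F1 0) v p))
  rcases h3.1.eq_or_lt with h | h
  · rw [← h]; linarith
  · nlinarith [mul_pos h h2, mul_nonneg (sub_nonneg.2 h3.2) h1.le]

theorem Good.add_const {G : ℝ × ℝ → ℝ} (h : Good G) (a : ℝ) : Good fun q => G q + a := by
  have : ∀ v, d (fun q => G q + a) v = d G v := fun v => by ext q; simp [d]
  exact ⟨h.smooth.add contDiff_const, by simpa only [this] using h.psd,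
    by simpa only [this] using h.gx, by simpa only [this] using h.gy⟩

theorem good_tr (δ j : ℝ) {l : ℝ} (hl : 0 < l) :
    Good fun q => pl 1 1 1 1 q + tr j l (ph δ (sR q.1) (1 - sR q.2)) := by
  let θ : ℝ → ℝ := fun r => l * Th (r / l)
  have hθ : ContDiff ℝ ∞ θ := contDiff_const.mul (Th_smooth.comp (contDiff_id.div_const l))
  have h1 : deriv θ = fun r => deriv Th (r / l) := funext fun r => by
    have := ((Th_diff (r / l)).hasDerivAt.comp r ((hasDerivAt_id' r).div_const l)).const_mul l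
    refine this.deriv.trans ?_
    field_simp
  have h2 : Monotone (deriv θ) := fun a b hab => by
    simp only [h1]; exact Th_deriv_mono (by gcongr)
  have := (good_one.add_const (-j)).comb (good_F δ) (fun _ => hθ.contDiffAt)
    (fun p => by rw [h1]; exact Th_deriv _) fun _ => h2.deriv_nonneg
  refine (congrArg Good ?_).mp this
  ext q
  simp only [θ, tr, F, add_sub_add_left_eq_sub, sub_neg_eq_add, add_assoc]

theorem hdet_one (q : ℝ × ℝ) : hdet (pl 1 1 1 1) q =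
    Real.exp q.1 * Real.exp q.2 / ((1 + Real.exp q.1) ^ 2 * (1 + Real.exp q.2) ^ 2) := by
  have : po 1 1 1 1 q = (1 + Real.exp q.1) * (1 + Real.exp q.2) := by unfold po; ring
  simp only [hdet, pl_dd po_one_pos, this]
  simp only [po]
  field_simp
  ring

theorem F1_zero (q : ℝ × ℝ) : F1 0 q = 2 * Real.arsinh √((1 + Real.exp q.1) * Real.exp q.2) := by
  have h1 : (1 - sR q.2 + 0 ^ 2) = (1 + Real.exp q.1) * Real.exp q.2 / po 1 1 1 1 q := by
    rw [eq_div_iff (po_one_pos q).ne']; unfold po sR; field_simp; ring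
  have h2 : (1 - sR q.2 + sR q.1 * (1 - (1 - sR q.2)) + 0 ^ 2) =
      (1 + (1 + Real.exp q.1) * Real.exp q.2) / po 1 1 1 1 q := by
    rw [eq_div_iff (po_one_pos q).ne']; unfold po sR; field_simp; ring
  rw [F1, f1, h1, h2, Real.sqrt_div' _ (po_one_pos q).le, Real.sqrt_div' _ (po_one_pos q).le,
    ← add_div, Real.log_div (by positivity) (Real.sqrt_pos.2 (po_one_pos q)).ne',
    Real.log_sqrt (po_one_pos q).le, Real.arsinh, Real.sq_sqrt (by positivity), pl]
  ring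

theorem hdet_F1 (q : ℝ × ℝ) : hdet (F1 0) q = Real.exp q.1 * Real.exp q.2 /
    (2 * (1 + Real.exp q.1) * (1 + (1 + Real.exp q.1) * Real.exp q.2) ^ 2) := by
  let θ : ℝ → ℝ := fun r => 2 * Real.arsinh (Real.exp (r / 2))
  have hθ : ContDiff ℝ ∞ θ := contDiff_const.mul (Real.contDiff_arsinh.comp (by fun_prop))
  have he : ∀ r : ℝ, Real.exp (r / 2) ^ 2 = Real.exp r := fun r => by
    rw [← Real.exp_nat_mul]; congr 1; push_cast; ring
  have h1 : deriv θ = fun r => Real.exp (r / 2) / √(1 + Real.exp r) := funext fun r => by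
    have := (((hasDerivAt_id' r).div_const 2).exp.arsinh).const_mul 2
    rw [this.deriv, he, smul_eq_mul]; ring
  have h2 : ∀ r, deriv θ r * deriv (deriv θ) r = Real.exp r / (2 * (1 + Real.exp r) ^ 2) :=
    fun r => by
      have h3 : 0 < 1 + Real.exp r := by positivity
      have h4 := Real.sqrt_pos.2 h3
      have := (((hasDerivAt_id' r).div_const 2).exp).fun_div
        (((Real.hasDerivAt_exp r).const_add 1).sqrt h3.ne') h4.ne'
      rw [h1, this.deriv]
      have h5 := Real.sq_sqrt h3.le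
      have h6 := he r
      simp only
      generalize √(1 + Real.exp r) = S at *
      generalize Real.exp (r / 2) = E at *
      rw [← h5, ← h6]
      field_simp
      rw [← h6] at h5
      linear_combination (E ^ 2) * h5
  have ha : ∀ q, 0 < po 0 0 1 1 q := fun q => by unfold po; positivity
  have h7 : F1 0 = fun q => (fun _ => (0 : ℝ)) q + θ (pl 0 0 1 1 q - (fun _ => (0 : ℝ)) q) := by
    ext q
    rw [F1_zero]
    simp only [θ, sub_zero, zero_add, pl]
    rw [← Real.log_sqrt (ha q).le, Real.exp_log (Real.sqrt_pos.2 (ha q)), po]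
    congr 3; ring
  have h8 : ∀ v : ℝ × ℝ, d (fun _ : ℝ × ℝ => (0 : ℝ)) v = fun _ => 0 := fun v => by ext; simp [d]
  have h9 := h2 (pl 0 0 1 1 q)
  rw [h7]
  simp only [hdet, comb_dd contDiff_const (pl_smooth ha) fun _ => hθ.contDiffAt, h8, pl_dd ha]
  simp only [pl_d ha, sub_zero, zero_add]
  generalize deriv θ (pl 0 0 1 1 q) = A at *
  generalize deriv (deriv θ) (pl 0 0 1 1 q) = B at *
  rw [pl, Real.exp_log (ha q)] at h9
  simp only [po] at h9 ⊢
  have hs := Real.exp_pos q.1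
  have ht := Real.exp_pos q.2
  generalize Real.exp q.1 = s at *
  generalize Real.exp q.2 = t at *
  have h10 : s * t / (2 * (1 + s) * (1 + (1 + s) * t) ^ 2) = A * B * (s / (1 + s) ^ 2) := by
    rw [h9]; field_simp; ring
  rw [h10]
  field_simp
  ring

end Pool.Agent.Lib.MP_ada39e_an
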