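import Pool.Agent.Lib.MP_ada39e_an.Defs

/-!
Smooth convex functions on the plane with gradient in the unit square.
-/

namespace Pool.Agent.Lib.MP_ada39e_an

set_option maxHeartbeats 400000

open Filter Topology MeasureTheory Set
open scoped ContDiff Real

/-- directional derivative -/
noncomputable def d {E : Type} [NormedAddCommGroup E] [NormedSpace ℝ E] (F : E → ℝ) (v : E) :
    E → ℝ := fun p => fderiv ℝ F p v

section general

variable {E : Type} [NormedAddCommGroup E] [NormedSpace ℝ E]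

theorem ContDiffAt.d {F : E → ℝ} {p : E} (h : ContDiffAt ℝ ∞ F p) (v : E) :
    ContDiffAt ℝ ∞ (d F v) p :=
  (h.fderiv_right (m := ∞) (by simp)).clm_apply contDiffAt_const

theorem contDiff_d {F : E → ℝ} (h : ContDiff ℝ ∞ F) (v : E) : ContDiff ℝ ∞ (d F v) :=
  contDiff_iff_contDiffAt.2 fun _ => ContDiffAt.d h.contDiffAt v

theorem d_eq {F : E → ℝ} {p : E} {L : E →L[ℝ] ℝ} (h : HasFDerivAt F L p) (v : E) :
    d F v p = L v := by rw [d, h.fderiv]

theorem hasF {F : E → ℝ} {p : E} (h : ContDiffAt ℝ ∞ F p) : HasFDerivAt F (fderiv ℝ F p) p :=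
  (h.differentiableAt (by simp)).hasFDerivAt

theorem d_congr {F G : E → ℝ} {p : E} (h : F =ᶠ[𝓝 p] G) (v : E) : d F v =ᶠ[𝓝 p] d G v :=
  (h.fderiv (𝕜 := ℝ)).mono fun q hq => by simp only [d, hq]

theorem dd_congr {F G : E → ℝ} {p : E} (h : F =ᶠ[𝓝 p] G) (v v' : E) :
    d (d F v) v' p = d (d G v) v' p := (d_congr (d_congr h v) v').eq_of_nhds

theorem dd_symm {F : E → ℝ} {p : E} (h : ContDiffAt ℝ ∞ F p) (v v' : E) :
    d (d F v) v' p = d (d F v') v p := by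
  have h1 : DifferentiableAt ℝ (fderiv ℝ F) p :=
    (h.fderiv_right (m := 1) (by norm_cast)).differentiableAt (by simp)
  have h2 : ∀ v v' : E, d (d F v) v' p = fderiv ℝ (fderiv ℝ F) p v' v := fun v v' => by
    have := d_eq (h1.hasFDerivAt.clm_apply (hasFDerivAt_const v p)) v'
    refine this.trans ?_
    simp
  rw [h2, h2]
  exact (h.isSymmSndFDerivAt (by simp; norm_cast)) v' v

variable {a b : E → ℝ} {θ : ℝ → ℝ}

theorem comb_smooth (ha : ContDiff ℝ ∞ a) (hb : ContDiff ℝ ∞ b)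
    (hθ : ∀ p, ContDiffAt ℝ ∞ θ (b p - a p)) : ContDiff ℝ ∞ fun p => a p + θ (b p - a p) :=
  contDiff_iff_contDiffAt.2 fun p =>
    ha.contDiffAt.add ((hθ p).comp p (hb.contDiffAt.sub ha.contDiffAt))

theorem comb_d (ha : ContDiff ℝ ∞ a) (hb : ContDiff ℝ ∞ b)
    (hθ : ∀ p, ContDiffAt ℝ ∞ θ (b p - a p)) (v : E) :
    d (fun p => a p + θ (b p - a p)) v =
      fun p => d a v p + deriv θ (b p - a p) * (d b v p - d a v p) := by
  ext p
  have h1 := (hasF ha.contDiffAt (p := p)).add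
    ((((hθ p).differentiableAt (by simp)).hasDerivAt).comp_hasFDerivAt p
      ((hasF hb.contDiffAt).sub (hasF ha.contDiffAt)))
  refine (d_eq h1 v).trans ?_
  simp [d]

theorem comb_dd (ha : ContDiff ℝ ∞ a) (hb : ContDiff ℝ ∞ b)
    (hθ : ∀ p, ContDiffAt ℝ ∞ θ (b p - a p)) (v v' p : E) :
    d (d (fun p => a p + θ (b p - a p)) v) v' p =
      d (d a v) v' p + deriv θ (b p - a p) * (d (d b v) v' p - d (d a v) v' p) +
        deriv (deriv θ) (b p - a p) * ((d b v' p - d a v' p) * (d b v p - d a v p)) := by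
  rw [comb_d ha hb hθ]
  have h0 : DifferentiableAt ℝ (deriv θ) (b p - a p) :=
    ((hθ p).derivWithin (m := 1) (by norm_cast)).differentiableAt (by simp)
  have h1 := (hasF (contDiff_d ha v).contDiffAt (p := p)).add
    ((h0.hasDerivAt.comp_hasFDerivAt p ((hasF hb.contDiffAt).sub (hasF ha.contDiffAt))).mul
      ((hasF (contDiff_d hb v).contDiffAt).sub (hasF (contDiff_d ha v).contDiffAt)))
  have := d_eq h1 v'
  refine this.trans ?_
  simp [d]
  ring

theorem d_smul_add {F : E → ℝ} (s t : ℝ) (v w p : E) :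
    d F (s • v + t • w) p = s * d F v p + t * d F w p := by simp [d]

end general

theorem d_coord (F : ℝ × ℝ → ℝ) (v p : ℝ × ℝ) :
    d F v p = v.1 * d F (1, 0) p + v.2 * d F (0, 1) p := by
  rw [← d_smul_add]; simp

theorem dd_coord {F : ℝ × ℝ → ℝ} {p : ℝ × ℝ} (h : ContDiffAt ℝ ∞ F p) (v v' : ℝ × ℝ) :
    d (d F v) v' p = v.1 * v'.1 * d (d F (1, 0)) (1, 0) p +
      (v.1 * v'.2 + v.2 * v'.1) * d (d F (1, 0)) (0, 1) p + v.2 * v'.2 * d (d F (0, 1)) (0, 1) p := by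
  rw [d_coord _ v', dd_symm h v, dd_symm h v, d_coord _ v, d_coord (d F (0, 1)) v,
    dd_symm h (0, 1) (1, 0)]
  ring

/-- determinant of the Hessian -/
noncomputable def hdet (F : ℝ × ℝ → ℝ) (p : ℝ × ℝ) : ℝ :=
  d (d F (1, 0)) (1, 0) p * d (d F (0, 1)) (0, 1) p - d (d F (1, 0)) (0, 1) p ^ 2

theorem hdet_congr {F G : ℝ × ℝ → ℝ} {p : ℝ × ℝ} (h : F =ᶠ[𝓝 p] G) : hdet F p = hdet G p := by
  simp only [hdet, dd_congr h]

theorem hdet_smooth {F : ℝ × ℝ → ℝ} (h : ContDiff ℝ ∞ F) : ContDiff ℝ ∞ (hdet F) :=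
  ((contDiff_d (contDiff_d h _) _).mul (contDiff_d (contDiff_d h _) _)).sub
    ((contDiff_d (contDiff_d h _) _).pow 2)

theorem hdet_pos {F : ℝ × ℝ → ℝ} {p : ℝ × ℝ} (h : ContDiffAt ℝ ∞ F p)
    (hp : ∀ v, v ≠ 0 → 0 < d (d F v) v p) : 0 < hdet F p := by
  have h1 := hp (1, 0) (by simp)
  have h2 := hp (-d (d F (1, 0)) (0, 1) p, d (d F (1, 0)) (1, 0) p) (by simp [h1.ne'])
  rw [dd_coord h] at h2
  unfold hdet
  by_contra hc
  nlinarith

/-- smooth convex functions with gradient in the unit square -/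
structure Good (F : ℝ × ℝ → ℝ) : Prop where
  smooth : ContDiff ℝ ∞ F
  psd : ∀ p v, 0 ≤ d (d F v) v p
  gx : ∀ p, d F (1, 0) p ∈ Icc (0 : ℝ) 1
  gy : ∀ p, d F (0, 1) p ∈ Icc (0 : ℝ) 1

theorem Good.comb {a b : ℝ × ℝ → ℝ} {θ : ℝ → ℝ} (ha : Good a) (hb : Good b)
    (hθ : ∀ p, ContDiffAt ℝ ∞ θ (b p - a p)) (h1 : ∀ p, deriv θ (b p - a p) ∈ Icc (0 : ℝ) 1)
    (h2 : ∀ p, 0 ≤ deriv (deriv θ) (b p - a p)) : Good fun p => a p + θ (b p - a p) where
  smooth := comb_smooth ha.smooth hb.smooth hθ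
  psd p v := by
    rw [comb_dd ha.smooth hb.smooth hθ]
    nlinarith [mul_nonneg (h2 p) (mul_self_nonneg (d b v p - d a v p)),
      mul_nonneg (h1 p).1 (hb.psd p v), mul_nonneg (sub_nonneg.2 (h1 p).2) (ha.psd p v)]
  gx p := by
    rw [comb_d ha.smooth hb.smooth hθ]
    constructor <;>
    nlinarith [mul_nonneg (h1 p).1 (hb.gx p).1, mul_nonneg (sub_nonneg.2 (h1 p).2) (ha.gx p).1,
      mul_nonneg (h1 p).1 (sub_nonneg.2 (hb.gx p).2),
      mul_nonneg (sub_nonneg.2 (h1 p).2) (sub_nonneg.2 (ha.gx p).2)]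
  gy p := by
    rw [comb_d ha.smooth hb.smooth hθ]
    constructor <;>
    nlinarith [mul_nonneg (h1 p).1 (hb.gy p).1, mul_nonneg (sub_nonneg.2 (h1 p).2) (ha.gy p).1,
      mul_nonneg (h1 p).1 (sub_nonneg.2 (hb.gy p).2),
      mul_nonneg (sub_nonneg.2 (h1 p).2) (sub_nonneg.2 (ha.gy p).2)]

/-- the sum of four monomials -/
noncomputable def po (c0 c1 c2 c3 : ℝ) (p : ℝ × ℝ) : ℝ :=
  c0 + c1 * Real.exp p.1 + c2 * Real.exp p.2 + c3 * (Real.exp p.1 * Real.exp p.2)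

theorem po_smooth (c0 c1 c2 c3 : ℝ) : ContDiff ℝ ∞ (po c0 c1 c2 c3) := by
  unfold po; fun_prop

theorem po_d (c0 c1 c2 c3 : ℝ) (v : ℝ × ℝ) :
    d (po c0 c1 c2 c3) v = po 0 (c1 * v.1) (c2 * v.2) (c3 * (v.1 + v.2)) := by
  ext p
  have hx := (hasFDerivAt_fst (𝕜 := ℝ) (p := p)).exp
  have hy := (hasFDerivAt_snd (𝕜 := ℝ) (p := p)).exp
  have h := (((hasFDerivAt_const c0 p).add (hx.const_mul c1)).add (hy.const_mul c2)).add
    ((hx.mul hy).const_mul c3)
  refine (d_eq h v).trans ?_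
  simp [po]; ring

/-- logarithm of a sum of four monomials -/
noncomputable def pl (c0 c1 c2 c3 : ℝ) (p : ℝ × ℝ) : ℝ := Real.log (po c0 c1 c2 c3 p)

section pl

variable {c0 c1 c2 c3 : ℝ} (h : ∀ p, 0 < po c0 c1 c2 c3 p)
include h

theorem pl_smooth : ContDiff ℝ ∞ (pl c0 c1 c2 c3) := (po_smooth _ _ _ _).log fun p => (h p).ne'

theorem pl_d (v : ℝ × ℝ) : d (pl c0 c1 c2 c3) v =
    fun p => po 0 (c1 * v.1) (c2 * v.2) (c3 * (v.1 + v.2)) p / po c0 c1 c2 c3 p := by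
  ext p
  refine (d_eq ((hasF (po_smooth c0 c1 c2 c3).contDiffAt).log (h p).ne') v).trans ?_
  rw [← po_d c0]; simp [d, div_eq_inv_mul]

theorem pl_dd (v v' p : ℝ × ℝ) : d (d (pl c0 c1 c2 c3) v) v' p =
    (po 0 (c1 * v.1 * v'.1) (c2 * v.2 * v'.2) (c3 * (v.1 + v.2) * (v'.1 + v'.2)) p
      * po c0 c1 c2 c3 p - po 0 (c1 * v.1) (c2 * v.2) (c3 * (v.1 + v.2)) p *
        po 0 (c1 * v'.1) (c2 * v'.2) (c3 * (v'.1 + v'.2)) p) / po c0 c1 c2 c3 p ^ 2 := by
  rw [pl_d h]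
  have h1 := (hasF (po_smooth 0 (c1 * v.1) (c2 * v.2) (c3 * (v.1 + v.2))).contDiffAt).mul
    ((hasDerivAt_inv (h p).ne').comp_hasFDerivAt p (hasF (po_smooth c0 c1 c2 c3).contDiffAt))
  simp only [div_eq_mul_inv]
  refine (d_eq h1 v').trans ?_
  have h2 := congrFun (po_d 0 (c1 * v.1) (c2 * v.2) (c3 * (v.1 + v.2)) v') p
  have h3 := congrFun (po_d c0 c1 c2 c3 v') p
  simp only [d] at h2 h3
  simp only [add_apply, smul_apply, smul_eq_mul, h2, h3,
    Function.comp]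
  have := (h p).ne'
  field_simp
  ring

theorem pl_dd_self (v p : ℝ × ℝ) : d (d (pl c0 c1 c2 c3) v) v p =
    (c0 * c1 * Real.exp p.1 * v.1 ^ 2 + c0 * c2 * Real.exp p.2 * v.2 ^ 2
      + c0 * c3 * Real.exp p.1 * Real.exp p.2 * (v.1 + v.2) ^ 2
      + c1 * c2 * Real.exp p.1 * Real.exp p.2 * (v.1 - v.2) ^ 2
      + c1 * c3 * Real.exp p.1 ^ 2 * Real.exp p.2 * v.2 ^ 2
      + c2 * c3 * Real.exp p.1 * Real.exp p.2 ^ 2 * v.1 ^ 2) / po c0 c1 c2 c3 p ^ 2 := by
  rw [pl_dd h]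
  congr 1
  simp only [po]; ring

theorem pl_good (h0 : 0 ≤ c0) (h1 : 0 ≤ c1) (h2 : 0 ≤ c2) (h3 : 0 ≤ c3) :
    Good (pl c0 c1 c2 c3) where
  smooth := pl_smooth h
  psd p v := by rw [pl_dd_self h]; positivity
  gx p := by
    rw [pl_d h]
    refine ⟨div_nonneg (by simp only [po]; positivity) (h p).le, (div_le_one (h p)).2 ?_⟩
    simp only [po]
    nlinarith [mul_nonneg h2 (Real.exp_pos p.2).le]
  gy p := by
    rw [pl_d h]
    refine ⟨div_nonneg (by simp only [po]; positivity) (h p).le, (div_le_one (h p)).2 ?_⟩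
    simp only [po]
    nlinarith [mul_nonneg h1 (Real.exp_pos p.1).le]

end pl

theorem po_one_pos (p : ℝ × ℝ) : 0 < po 1 1 1 1 p := by unfold po; positivity

theorem pl_one_pd (v p : ℝ × ℝ) (hv : v ≠ 0) : 0 < d (d (pl 1 1 1 1) v) v p := by
  rw [pl_dd_self po_one_pos]
  refine div_pos ?_ (pow_pos (po_one_pos p) 2)
  by_cases h1 : v.1 = 0
  · have h2 : v.2 ≠ 0 := fun h2 => hv (Prod.ext h1 h2)
    positivity
  · positivity

theorem d_lin {F : ℝ × ℝ → ℝ} (h : ContDiff ℝ ∞ F) (S : ℝ × ℝ →L[ℝ] ℝ × ℝ) (L : ℝ × ℝ →L[ℝ] ℝ)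
    (v : ℝ × ℝ) : d (fun p => F (S p) + L p) v = fun p => d F (S v) (S p) + L v := by
  ext p
  exact d_eq (((hasF h.contDiffAt).comp p S.hasFDerivAt).add L.hasFDerivAt) v

theorem dd_lin {F : ℝ × ℝ → ℝ} (h : ContDiff ℝ ∞ F) (S : ℝ × ℝ →L[ℝ] ℝ × ℝ) (L : ℝ × ℝ →L[ℝ] ℝ)
    (v v' p : ℝ × ℝ) :
    d (d (fun p => F (S p) + L p) v) v' p = d (d F (S v)) (S v') (S p) := by
  rw [d_lin h]
  exact d_eq (((hasF (contDiff_d h (S v)).contDiffAt).comp p S.hasFDerivAt).add_const _) v'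

theorem Good.flipX {F : ℝ × ℝ → ℝ} (h : Good F) : Good fun p => F (-p.1, p.2) + p.1 := by
  let S : ℝ × ℝ →L[ℝ] ℝ × ℝ := (-ContinuousLinearMap.fst ℝ ℝ ℝ).prod (ContinuousLinearMap.snd ℝ ℝ ℝ)
  change Good fun p => F (S p) + ContinuousLinearMap.fst ℝ ℝ ℝ p
  refine ⟨(h.smooth.comp S.contDiff).add contDiff_fst, fun p v => ?_, fun p => ?_, fun p => ?_⟩
  · rw [dd_lin h.smooth]; exact h.psd _ _
  · rw [d_lin h.smooth]
    simp only
    rw [d_coord]
    have := h.gx (-p.1, p.2)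
    simp [S]
    constructor <;> linarith [this.1, this.2]
  · rw [d_lin h.smooth]
    simpa [S] using h.gy (S p)

theorem Good.flipY {F : ℝ × ℝ → ℝ} (h : Good F) : Good fun p => F (p.1, -p.2) + p.2 := by
  let S : ℝ × ℝ →L[ℝ] ℝ × ℝ := (ContinuousLinearMap.fst ℝ ℝ ℝ).prod (-ContinuousLinearMap.snd ℝ ℝ ℝ)
  change Good fun p => F (S p) + ContinuousLinearMap.snd ℝ ℝ ℝ p
  refine ⟨(h.smooth.comp S.contDiff).add contDiff_snd, fun p v => ?_, fun p => ?_, fun p => ?_⟩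
  · rw [dd_lin h.smooth]; exact h.psd _ _
  · rw [d_lin h.smooth]
    simpa [S] using h.gx (S p)
  · rw [d_lin h.smooth]
    simp only
    rw [d_coord]
    have := h.gy (p.1, -p.2)
    simp [S]
    constructor <;> linarith [this.1, this.2]

theorem Good.hdet_nonneg {F : ℝ × ℝ → ℝ} (h : Good F) (p : ℝ × ℝ) : 0 ≤ hdet F p := by
  have := discrim_le_zero (a := d (d F (1, 0)) (1, 0) p) (b := 2 * d (d F (1, 0)) (0, 1) p)
    (c := d (d F (0, 1)) (0, 1) p) fun x => by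
      have := h.psd p (x, 1)
      rw [dd_coord h.smooth.contDiffAt] at this
      simp only at this
      linarith
  unfold discrim at this
  unfold hdet
  linarith

/-- gradient map -/
noncomputable def grad (F : ℝ × ℝ → ℝ) (p : ℝ × ℝ) : ℝ × ℝ := (d F (1, 0) p, d F (0, 1) p)

theorem grad_deriv {F : ℝ × ℝ → ℝ} (h : ContDiff ℝ ∞ F) (p : ℝ × ℝ) :
    ∃ A : ℝ × ℝ →L[ℝ] ℝ × ℝ, HasFDerivAt (grad F) A p ∧ A.det = hdet F p := by
  refine ⟨_, (hasF (contDiff_d h (1, 0)).contDiffAt).prodMk (hasF (contDiff_d h (0, 1)).contDiffAt),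
    ?_⟩
  rw [ContinuousLinearMap.det, ← LinearMap.det_toMatrix (Module.Basis.finTwoProd ℝ),
    Matrix.det_fin_two]
  have := dd_symm h.contDiffAt (p := p) (0, 1) (1, 0)
  simp only [d] at this
  simp [LinearMap.toMatrix_apply, hdet, d, this, sq]

theorem grad_inj {F : ℝ × ℝ → ℝ} (h : ContDiff ℝ ∞ F) (hp : ∀ p v, v ≠ 0 → 0 < d (d F v) v p) :
    Function.Injective (grad F) := by
  intro p q hpq
  by_contra hne
  have hv : q - p ≠ 0 := sub_ne_zero.2 (Ne.symm hne)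
  have h1 : ∀ t : ℝ, HasDerivAt (fun t : ℝ => d F (q - p) (p + t • (q - p)))
      (d (d F (q - p)) (q - p) (p + t • (q - p))) t := fun t => by
    have := (hasF (contDiff_d h (q - p)).contDiffAt).comp_hasDerivAt t
      (((hasDerivAt_id t).smul_const (q - p)).const_add p)
    rw [one_smul] at this
    exact this
  have h2 := strictMono_of_hasDerivAt_pos h1 (fun t => hp _ _ hv) zero_lt_one
  simp only [zero_smul, add_zero, one_smul, add_sub_cancel] at h2
  rw [d_coord, d_coord F _ q] at h2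
  have h3 := congrArg Prod.fst hpq
  have h4 := congrArg Prod.snd hpq
  simp only [grad] at h3 h4
  rw [h3, h4] at h2
  exact lt_irrefl _ h2

theorem mass_le_pd {F : ℝ × ℝ → ℝ} (h : Good F) (hp : ∀ p v, v ≠ 0 → 0 < d (d F v) v p) :
    ∫⁻ p, ENNReal.ofReal (hdet F p) ≤ 1 := by
  choose A hA hA' using grad_deriv h.smooth
  have h1 := lintegral_abs_det_fderiv_eq_addHaar_image volume MeasurableSet.univ
    (fun p _ => (hA p).hasFDerivWithinAt) (grad_inj h.smooth hp).injOn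
  simp only [hA', abs_of_nonneg (h.hdet_nonneg _), Measure.restrict_univ] at h1
  rw [h1]
  refine (measure_mono (t := Icc 0 1 ×ˢ Icc 0 1) ?_).trans ?_
  · rintro _ ⟨p, -, rfl⟩
    exact ⟨h.gx p, h.gy p⟩
  · rw [Measure.volume_eq_prod, Measure.prod_prod]; simp

theorem mass_le {F : ℝ × ℝ → ℝ} (h : Good F) : ∫⁻ p, ENNReal.ofReal (hdet F p) ≤ 1 := by
  have h0 := pl_good po_one_pos zero_le_one zero_le_one zero_le_one zero_le_one
  have h1 : ∀ η : ℝ, deriv (fun r : ℝ => η * r) = fun _ => η := fun η => by ext; simp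
  have h2 : ∀ η r : ℝ, ContDiffAt ℝ ∞ (fun r : ℝ => η * r) r := fun η r => by fun_prop
  let G : ℝ → ℝ × ℝ → ℝ := fun η p => F p + (fun r => η * r) (pl 1 1 1 1 p - F p)
  have h3 : ∀ η v v' p, d (d (G η) v) v' p =
      d (d F v) v' p + η * (d (d (pl 1 1 1 1) v) v' p - d (d F v) v' p) := fun η v v' p => by
    simp only [G]
    rw [comb_dd h.smooth h0.smooth fun p => h2 η _]
    simp [h1]
  have h4 : ∀ η ∈ Ioc (0 : ℝ) 1, ∫⁻ p, ENNReal.ofReal (hdet (G η) p) ≤ 1 := fun η hη => by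
    refine mass_le_pd (h.comb h0 (fun p => h2 η _) (fun p => ?_) fun p => ?_) fun p v hv => ?_
    · rw [h1]; exact ⟨hη.1.le, hη.2⟩
    · simp [h1]
    · rw [h3]
      nlinarith [mul_pos hη.1 (pl_one_pd v p hv), mul_nonneg (sub_nonneg.2 hη.2) (h.psd p v)]
  have h5 : ∀ p, ENNReal.ofReal (hdet F p) =
      liminf (fun n : ℕ => ENNReal.ofReal (hdet (G (1 / ((n : ℝ) + 1))) p)) atTop := fun p => by
    refine (Tendsto.liminf_eq (ENNReal.tendsto_ofReal ?_)).symm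
    have h6 : Continuous fun η => hdet (G η) p := by simp only [hdet, h3]; fun_prop
    have h7 := (h6.tendsto 0).comp (tendsto_one_div_add_atTop_nhds_zero_nat (𝕜 := ℝ))
    simpa [hdet, h3, Function.comp_def] using h7
  simp only [h5]
  refine (lintegral_liminf_le fun n => ?_).trans ?_
  · exact (hdet_smooth (comb_smooth h.smooth h0.smooth
      fun p => h2 _ _)).continuous.measurable.ennreal_ofReal
  · refine liminf_le_of_frequently_le' (Frequently.of_forall fun n => h4 _ ⟨by positivity, ?_⟩)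
    rw [div_le_one (by positivity)]
    linarith [Nat.cast_nonneg (α := ℝ) n]

theorem mass_eq {F : ℝ × ℝ → ℝ} (h : Good F) {C : ℝ}
    (hC : ∀ p, pl 1 1 1 1 p - Real.log (1 + Real.log (1 + Real.exp (-p.2))) - C ≤ F p) :
    ∫⁻ p, ENNReal.ofReal (hdet F p) = 1 := by
  refine le_antisymm (mass_le h) ?_
  choose A hA hA' using grad_deriv h.smooth
  have h1 := addHaar_image_le_lintegral_abs_det_fderiv volume MeasurableSet.univ
    (fun p _ => (hA p).hasFDerivWithinAt)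
  simp only [hA', abs_of_nonneg (h.hdet_nonneg _), Measure.restrict_univ] at h1
  refine le_trans ?_ h1
  refine le_trans ?_ (measure_mono (s := Ioo 0 1 ×ˢ Ioo 0 1) ?_)
  · rw [Measure.volume_eq_prod, Measure.prod_prod]; simp
  rintro ⟨a, b⟩ ⟨⟨ha0, ha1⟩, hb0, hb1⟩
  simp only at ha0 ha1 hb0 hb1
  obtain ⟨m, hm, h2, h3, h4, h5⟩ : ∃ m : ℝ, 0 < m ∧ m ≤ a ∧ m ≤ 1 - a ∧ m ≤ b ∧ m ≤ 1 - b :=
    ⟨min (min a (1 - a)) (min b (1 - b)), by simp [*], by simp, by simp, by simp, by simp⟩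
  have h6 : ∀ x c : ℝ, m ≤ c → m ≤ 1 - c → m * |x| ≤ Real.log (1 + Real.exp x) - c * x :=
    fun x c hc hc' => by
      have h7 : 0 ≤ Real.log (1 + Real.exp x) := Real.log_nonneg (by linarith [Real.exp_pos x])
      have h8 : x ≤ Real.log (1 + Real.exp x) :=
        (Real.le_log_iff_exp_le (by positivity)).2 (by linarith)
      rcases abs_cases x with ⟨h, h'⟩ | ⟨h, h'⟩ <;> rw [h] <;> nlinarith
  have h9 : ∀ y : ℝ, Real.log (1 + Real.log (1 + Real.exp (-y))) ≤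
      m / 2 * (2 + |y|) - 1 - Real.log (m / 2) := fun y => by
    have h10 : Real.log (1 + Real.exp (-y)) ≤ 1 + |y| := by
      rw [Real.log_le_iff_le_exp (by positivity), Real.exp_add]
      have h11 : Real.exp (-y) ≤ Real.exp |y| := Real.exp_le_exp.2 (neg_le_abs y)
      have h12 : 1 ≤ Real.exp |y| := Real.one_le_exp (abs_nonneg y)
      nlinarith [Real.add_one_le_exp (1 : ℝ)]
    have h13 : 0 ≤ Real.log (1 + Real.exp (-y)) := Real.log_nonneg (by linarith [Real.exp_pos (-y)])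
    have h14 := Real.log_le_sub_one_of_pos (x := m / 2 * (2 + |y|)) (by positivity)
    rw [Real.log_mul (by positivity) (by positivity)] at h14
    have h15 := Real.log_le_log (by positivity) (show 1 + Real.log (1 + Real.exp (-y)) ≤ 2 + |y| by
      linarith)
    linarith
  let G : ℝ × ℝ → ℝ := fun p => F p - (a * p.1 + b * p.2)
  have hG : Continuous G := h.smooth.continuous.sub (by fun_prop)
  have h16 : Tendsto G (cocompact _) atTop := by
    refine tendsto_atTop_mono (f := fun p => m / 2 * ‖p‖ + (-C - m + 1 + Real.log (m / 2)))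
      (fun p => ?_) (tendsto_atTop_add_const_right _ _
        (Tendsto.const_mul_atTop (by positivity) (tendsto_norm_cocompact_atTop (E := ℝ × ℝ))))
    have h17 : pl 1 1 1 1 p = Real.log (1 + Real.exp p.1) + Real.log (1 + Real.exp p.2) := by
      rw [← Real.log_mul (by positivity) (by positivity), pl, po]; congr 1; ring
    have h18 : ‖p‖ ≤ |p.1| + |p.2| :=
      max_le (by simp) (by simp)
    have := hC p
    simp only [G]
    nlinarith [h6 p.1 a h2 h3, h6 p.2 b h4 h5, h9 p.2, abs_nonneg p.1]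
  obtain ⟨p, hp⟩ := hG.exists_forall_le h16
  have h19 := (IsMinOn.isLocalMin (f := G) (a := p) (s := univ) (fun q _ => hp q)
    univ_mem).hasFDerivAt_eq_zero
    ((hasF h.smooth.contDiffAt).sub
      ((hasFDerivAt_fst.const_mul a).add (hasFDerivAt_snd.const_mul b)))
  have h20 := congrArg (fun L : ℝ × ℝ →L[ℝ] ℝ => L (1, 0)) h19
  have h21 := congrArg (fun L : ℝ × ℝ →L[ℝ] ℝ => L (0, 1)) h19
  refine ⟨p, trivial, Prod.ext ?_ ?_⟩
  · simpa [sub_eq_zero, grad, d] using h20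
  · simpa [sub_eq_zero, grad, d] using h21

end Pool.Agent.Lib.MP_ada39e_an
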