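import Pool.Agent.Lib.MP_ada39e_an.UbProfile

/-!
The density of the unbounded example in moment coordinates.
-/

namespace Pool.Agent.Lib.MP_ada39e_an.Ub

set_option maxHeartbeats 400000

open Filter Topology MeasureTheory Set
open scoped ContDiff Real

/-- moment coordinates -/
noncomputable def mm (q : ℝ × ℝ) : ℝ × ℝ := (sR q.1, 1 - sR q.2)

theorem sR_has (x : ℝ) : HasDerivAt sR (-(sR x * (1 - sR x))) x := by
  have h := ((Real.hasDerivAt_exp x).const_add 1).fun_inv (by positivity)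
  have h1 : sR = fun x => (1 + Real.exp x)⁻¹ := by ext x; rw [sR, one_div]
  have h2 : -(sR x * (1 - sR x)) = -Real.exp x / (1 + Real.exp x) ^ 2 := by
    unfold sR; field_simp; ring
  rw [h2, h1]
  exact h

theorem mm_smooth : ContDiff ℝ ∞ mm :=
  (sR_smooth.comp contDiff_fst).prodMk (contDiff_const.sub (sR_smooth.comp contDiff_snd))

theorem d_mm {H : ℝ × ℝ → ℝ} {q : ℝ × ℝ} (h : ContDiffAt ℝ ∞ H (mm q)) (v : ℝ × ℝ) :
    d (H ∘ mm) v q = -(v.1 * ((mm q).1 * (1 - (mm q).1) * d H (1, 0) (mm q))) +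
      v.2 * ((mm q).2 * (1 - (mm q).2) * d H (0, 1) (mm q)) := by
  have h1 : HasFDerivAt mm _ q :=
    ((sR_has q.1).comp_hasFDerivAt q (hasFDerivAt_fst (𝕜 := ℝ))).prodMk
      (((sR_has q.2).comp_hasFDerivAt q (hasFDerivAt_snd (𝕜 := ℝ))).const_sub 1)
  refine (d_eq ((hasF h).comp q h1) v).trans ?_
  refine (d_coord H _ (mm q)).trans ?_
  simp [mm]
  ring

theorem gg_mm (q : ℝ × ℝ) : ContDiffAt ℝ ∞ gg (mm q) :=
  gg_smooth (sR_pos _).le (sR_lt _).le (sub_pos.2 (sR_lt _)) (sub_le_self _ (sR_pos _).le)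

/-- first flux -/
noncomputable def A1 (s : ℝ × ℝ) : ℝ := s.1 * (1 - s.1) * d gg (1, 0) s

/-- second flux -/
noncomputable def A2 (s : ℝ × ℝ) : ℝ := s.2 * (1 - s.2) * d gg (0, 1) s

/-- the density in moment coordinates -/
noncomputable def fs (s : ℝ × ℝ) : ℝ :=
  (1 + d A1 (1, 0) s) * (1 + d A2 (0, 1) s) - d A1 (0, 1) s * d A2 (1, 0) s

theorem A1_smooth {s : ℝ × ℝ} (h : ContDiffAt ℝ ∞ gg s) : ContDiffAt ℝ ∞ A1 s :=
  (contDiffAt_fst.mul (contDiffAt_const.sub contDiffAt_fst)).mul (ContDiffAt.d h _)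

theorem A2_smooth {s : ℝ × ℝ} (h : ContDiffAt ℝ ∞ gg s) : ContDiffAt ℝ ∞ A2 s :=
  (contDiffAt_snd.mul (contDiffAt_const.sub contDiffAt_snd)).mul (ContDiffAt.d h _)

theorem fs_smooth {s : ℝ × ℝ} (h : ContDiffAt ℝ ∞ gg s) : ContDiffAt ℝ ∞ fs s :=
  ((contDiffAt_const.add (ContDiffAt.d (A1_smooth h) _)).mul
    (contDiffAt_const.add (ContDiffAt.d (A2_smooth h) _))).sub
    ((ContDiffAt.d (A1_smooth h) _).mul (ContDiffAt.d (A2_smooth h) _))

theorem fs_meas : Measurable fs := by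
  have h := fun (F : ℝ × ℝ → ℝ) (v : ℝ × ℝ) => measurable_fderiv_apply_const ℝ F v
  exact ((measurable_const.add (h _ _)).mul (measurable_const.add (h _ _))).sub
    ((h _ _).mul (h _ _))

theorem d_add {F G : ℝ × ℝ → ℝ} {q : ℝ × ℝ} (hF : ContDiffAt ℝ ∞ F q) (hG : ContDiffAt ℝ ∞ G q)
    (c : ℝ) (v : ℝ × ℝ) : d (fun q => F q + c * G q) v q = d F v q + c * d G v q := by
  refine (d_eq ((hasF hF).add ((hasF hG).const_mul c)) v).trans ?_
  simp [d]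

theorem FF_d1 : d FF (1, 0) = fun q => d (pl 1 1 1 1) (1, 0) q + (-1) * (A1 ∘ mm) q := by
  ext q
  have h1 : FF = fun q => pl 1 1 1 1 q + 1 * (gg ∘ mm) q := by ext; simp [FF, gg, mm]
  rw [h1, d_add good_one.smooth.contDiffAt ((gg_mm q).comp q mm_smooth.contDiffAt),
    d_mm (gg_mm q)]
  simp [A1]

theorem FF_d2 : d FF (0, 1) = fun q => d (pl 1 1 1 1) (0, 1) q + 1 * (A2 ∘ mm) q := by
  ext q
  have h1 : FF = fun q => pl 1 1 1 1 q + 1 * (gg ∘ mm) q := by ext; simp [FF, gg, mm]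
  rw [h1, d_add good_one.smooth.contDiffAt ((gg_mm q).comp q mm_smooth.contDiffAt),
    d_mm (gg_mm q)]
  simp [A2]

theorem hdet_eq (q : ℝ × ℝ) : hdet FF q = hdet (pl 1 1 1 1) q * fs (mm q) := by
  have h1 := A1_smooth (gg_mm q)
  have h2 := A2_smooth (gg_mm q)
  have h3 := fun v => (contDiff_d good_one.smooth v).contDiffAt (x := q)
  have h4 : hdet FF q = d (d FF (1, 0)) (1, 0) q * d (d FF (0, 1)) (0, 1) q -
      d (d FF (1, 0)) (0, 1) q * d (d FF (0, 1)) (1, 0) q := by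
    rw [hdet, dd_symm FF_smooth.contDiffAt (0, 1) (1, 0), sq]
  have h5 : po 1 1 1 1 q = (1 + Real.exp q.1) * (1 + Real.exp q.2) := by unfold po; ring
  rw [h4, FF_d1, FF_d2, hdet_one]
  simp only [d_add (h3 _) (h1.comp q mm_smooth.contDiffAt),
    d_add (h3 _) (h2.comp q mm_smooth.contDiffAt), d_mm h1, d_mm h2, pl_dd po_one_pos, h5, fs]
  generalize d A1 (1, 0) (mm q) = a
  generalize d A1 (0, 1) (mm q) = b
  generalize d A2 (1, 0) (mm q) = c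
  generalize d A2 (0, 1) (mm q) = e
  simp only [po, mm, sR]
  field_simp
  ring

theorem hdet_one_pos (q : ℝ × ℝ) : 0 < hdet (pl 1 1 1 1) q := by rw [hdet_one]; positivity

theorem mm_surj {s : ℝ × ℝ} (h : s ∈ Ioo (0 : ℝ) 1 ×ˢ Ioo (0 : ℝ) 1) :
    mm (Real.log ((1 - s.1) / s.1), Real.log (s.2 / (1 - s.2))) = s := by
  obtain ⟨⟨h1, h2⟩, h3, h4⟩ := h
  have h5 := sub_pos.2 h2
  have h6 := sub_pos.2 h4
  refine Prod.ext ?_ ?_
  · simp only [mm, sR, Real.exp_log (div_pos h5 h1)]; field_simp; ring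
  · simp only [mm, sR, Real.exp_log (div_pos h3 h6)]; field_simp; ring

theorem mem_clo {s : ℝ × ℝ} (h0 : 0 ≤ s.1) (h0' : s.1 ≤ 1) (h : 0 ≤ s.2) (h1 : s.2 ≤ 1) :
    s ∈ closure (Ioo (0 : ℝ) 1 ×ˢ Ioo (0 : ℝ) 1) := by
  rw [closure_prod_eq, closure_Ioo zero_ne_one]
  exact ⟨⟨h0, h0'⟩, h, h1⟩

theorem le_fs {s : ℝ × ℝ} (h0 : 0 ≤ s.1) (h0' : s.1 ≤ 1) (h : 0 < s.2) (h1 : s.2 ≤ 1) :
    1 / 20 ≤ fs s := by
  refine ContinuousWithinAt.closure_le (f := fun _ => (1 / 20 : ℝ)) (mem_clo h0 h0' h.le h1)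
    continuousWithinAt_const (fs_smooth (gg_smooth h0 h0' h h1)).continuousAt.continuousWithinAt
    fun r hr => ?_
  have h2 := hdet_FF (Real.log ((1 - r.1) / r.1), Real.log (r.2 / (1 - r.2)))
  rw [hdet_eq, mm_surj hr] at h2
  exact le_of_mul_le_mul_left ((mul_one_div _ _).trans_le h2) (hdet_one_pos _)

/-- a neighbourhood of the singular curve -/
def Nb : Set (ℝ × ℝ) :=
  {s | 0 < s.1 ∧ s.2 < 1 ∧ s.2 / (1 - s.2) < Real.exp (-(Real.exp 52 * (1 / s.1) ^ 4))}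

theorem Nb_nhds {s : ℝ × ℝ} (h : s ∈ Nb) : Nb ∈ 𝓝 s := by
  have h1 := h.1.ne'
  have h2 := (sub_pos.2 h.2.1).ne'
  refine (continuousAt_const.eventually_lt continuous_fst.continuousAt h.1).and
    ((continuous_snd.continuousAt.eventually_lt continuousAt_const h.2.1).and
      (ContinuousAt.eventually_lt ?_ ?_ h.2.2))
  · fun_prop (disch := assumption)
  · fun_prop (disch := assumption)

theorem fs_near {s : ℝ × ℝ} (hs : s ∈ Nb) (h0' : s.1 ≤ 1) (h : 0 < s.2) :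
    fs s = 1 / (4 * s.1 ^ 2 * (1 - s.2) ^ 2) := by
  have h1 : s ∈ closure (Nb ∩ Ioo (0 : ℝ) 1 ×ˢ Ioo (0 : ℝ) 1) :=
    mem_closure_iff_nhds.2 fun t ht => by
      obtain ⟨r, hr⟩ := mem_closure_iff_nhds.1 (mem_clo hs.1.le h0' h.le hs.2.1.le) _
        (inter_mem ht (Nb_nhds hs))
      exact ⟨r, hr.1.1, hr.1.2, hr.2⟩
  have h2 : ∀ r ∈ Nb ∩ Ioo (0 : ℝ) 1 ×ˢ Ioo (0 : ℝ) 1, fs r = 1 / (4 * r.1 ^ 2 * (1 - r.2) ^ 2) := by
    rintro r ⟨hr, hr'⟩
    have k1 := hr'.1.1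
    have k2 := sub_pos.2 hr'.1.2
    have k3 := hr'.2.1
    have k4 := sub_pos.2 hr'.2.2
    have k5 : 1 + (1 - r.1) / r.1 = 1 / r.1 := by field_simp; ring
    have k6 : 1 + r.2 / (1 - r.2) = 1 / (1 - r.2) := by field_simp; ring
    have h3 := hdet_near (q := (Real.log ((1 - r.1) / r.1), Real.log (r.2 / (1 - r.2)))) (by
      simp only [Real.exp_log (div_pos k2 k1), k5]
      linarith [(Real.log_lt_iff_lt_exp (div_pos k3 k4)).2 hr.2.2])
    rw [hdet_eq, mm_surj hr', hdet_one] at h3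
    simp only [Real.exp_log (div_pos k2 k1), Real.exp_log (div_pos k3 k4), k5, k6] at h3
    field_simp at h3 ⊢
    linarith
  have h3 := (fs_smooth (gg_smooth hs.1.le h0' h hs.2.1.le)).continuousAt.continuousWithinAt
    (s := Nb ∩ Ioo (0 : ℝ) 1 ×ˢ Ioo (0 : ℝ) 1)
  have h4 : ContinuousAt (fun r : ℝ × ℝ => 1 / (4 * r.1 ^ 2 * (1 - r.2) ^ 2)) s := by
    have k1 := hs.1
    have k2 := sub_pos.2 hs.2.1
    fun_prop (disch := positivity)
  exact le_antisymm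
    (ContinuousWithinAt.closure_le h1 h3 h4.continuousWithinAt fun r hr => (h2 r hr).le)
    (ContinuousWithinAt.closure_le h1 h4.continuousWithinAt h3 fun r hr => (h2 r hr).ge)

/-- the density, including the singular curve -/
noncomputable def fm (s : ℝ × ℝ) : ℝ := if s.2 = 0 then 1 / (4 * s.1 ^ 2) else fs s

theorem fm_meas : Measurable fm :=
  Measurable.ite (measurable_snd (measurableSet_singleton 0)) (by fun_prop) fs_meas

theorem fm_nonneg {s : ℝ × ℝ} (h0 : 0 ≤ s.1) (h0' : s.1 ≤ 1) (h : 0 ≤ s.2) (h1 : s.2 ≤ 1) :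
    0 ≤ fm s := by
  unfold fm
  split_ifs with h2
  · positivity
  · linarith [le_fs h0 h0' (lt_of_le_of_ne h (Ne.symm h2)) h1]

theorem le_fm {s : ℝ × ℝ} (h0 : 0 ≤ s.1) (h0' : s.1 ≤ 1) (h : 0 ≤ s.2) (h1 : s.2 ≤ 1)
    (h2 : s.1 ≠ 0 ∨ s.2 ≠ 0) : 1 / 20 ≤ fm s := by
  unfold fm
  split_ifs with h3
  · have h4 : 0 < s.1 := lt_of_le_of_ne h0 (Ne.symm (h2.resolve_right (not_not.2 h3)))
    rw [div_le_div_iff₀ (by norm_num) (by positivity)]
    nlinarith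
  · exact le_fs h0 h0' (lt_of_le_of_ne h (Ne.symm h3)) h1

theorem fm_smooth {E : Type} [NormedAddCommGroup E] [NormedSpace ℝ E] {s : E → ℝ × ℝ} {p : E}
    (hs : ContDiffAt ℝ ∞ s p) (h0 : ∀ q, 0 ≤ (s q).1) (h0' : ∀ q, (s q).1 ≤ 1)
    (h : ∀ q, 0 ≤ (s q).2) (h1 : ∀ q, (s q).2 ≤ 1) (h2 : (s p).1 ≠ 0 ∨ (s p).2 ≠ 0) :
    ContDiffAt ℝ ∞ (fun q => fm (s q)) p := by
  by_cases h3 : (s p).2 = 0
  · have h4 : 0 < (s p).1 := lt_of_le_of_ne (h0 p) (Ne.symm (h2.resolve_right (not_not.2 h3)))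
    have h5 : s p ∈ Nb := ⟨h4, by rw [h3]; norm_num, by rw [h3]; simpa using Real.exp_pos _⟩
    have h6 : ContDiffAt ℝ ∞ (fun q => 1 / (4 * (s q).1 ^ 2 * (1 - (s q).2) ^ 2)) p :=
      contDiffAt_const.div ((contDiffAt_const.mul (hs.fst.pow 2)).mul
        ((contDiffAt_const.sub hs.snd).pow 2)) (by rw [h3]; positivity)
    refine h6.congr_of_eventuallyEq ?_
    filter_upwards [hs.continuousAt.preimage_mem_nhds (Nb_nhds h5)] with q hq
    unfold fm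
    split_ifs with h7
    · simp [h7]
    · exact fs_near hq (h0' q) (lt_of_le_of_ne (h q) (Ne.symm h7))
  · refine ((fs_smooth (gg_smooth (h0 p) (h0' p) (lt_of_le_of_ne (h p) (Ne.symm h3))
      (h1 p))).comp p hs).congr_of_eventuallyEq ?_
    filter_upwards [hs.snd.continuousAt.eventually_ne h3] with q hq
    exact if_neg hq

end Pool.Agent.Lib.MP_ada39e_an.Ub
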