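import Pool.Agent.Lib.MP_ada39e_an.Measure

/-!
The unbounded local model: a convex function with Hessian determinant `exp (x + y) / 4`.
-/

namespace Pool.Agent.Lib.MP_ada39e_an.Ub

set_option maxHeartbeats 400000

open Filter Topology MeasureTheory Set
open scoped ContDiff Real

/-- the quantity `4 |z w|^2 (log |w|^2)^2` -/
noncomputable def PP (q : ℝ × ℝ) : ℝ := 4 * Real.exp q.1 * Real.exp q.2 * q.2 ^ 2

/-- the square root -/
noncomputable def ss (q : ℝ × ℝ) : ℝ := √(1 - PP q)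

/-- the local model -/
noncomputable def U (q : ℝ × ℝ) : ℝ :=
  (-Real.log (-q.2) + (Real.log (1 + ss q) - ss q)) / 2 - 10

/-- the domain of the local model -/
def Om : Set (ℝ × ℝ) := {q | q.2 < 0 ∧ PP q < 1}

theorem PP_smooth : ContDiff ℝ ∞ PP := by unfold PP; fun_prop

theorem isOpen_Om : IsOpen Om :=
  (isOpen_lt continuous_snd continuous_const).inter
    (isOpen_lt PP_smooth.continuous continuous_const)

theorem PP_pos {q : ℝ × ℝ} (h : q.2 < 0) : 0 < PP q := by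
  have := h.ne
  unfold PP; positivity

theorem ss_pos {q : ℝ × ℝ} (h : q ∈ Om) : 0 < ss q := Real.sqrt_pos.2 (sub_pos.2 h.2)

theorem ss_sq {q : ℝ × ℝ} (h : q ∈ Om) : ss q ^ 2 = 1 - PP q := Real.sq_sqrt (sub_pos.2 h.2).le

theorem ss_le {q : ℝ × ℝ} (h : q ∈ Om) : ss q ≤ 1 :=
  Real.sqrt_le_one.2 (by linarith [PP_pos h.1])

theorem PP_has {q : ℝ × ℝ} (h : q.2 < 0) : ∃ L : ℝ × ℝ →L[ℝ] ℝ, HasFDerivAt PP L q ∧
    ∀ v, L v = PP q * (v.1 + v.2 + 2 * v.2 / q.2) := by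
  have hx := (hasFDerivAt_fst (𝕜 := ℝ) (p := q)).exp
  have hy := (hasFDerivAt_snd (𝕜 := ℝ) (p := q)).exp
  have h1 := ((hx.const_mul 4).mul hy).mul ((hasFDerivAt_snd (𝕜 := ℝ) (p := q)).pow 2)
  refine ⟨_, h1, fun v => ?_⟩
  have := h.ne
  simp [PP]
  field_simp
  ring

theorem ss_has {q : ℝ × ℝ} (h : q ∈ Om) : ∃ L : ℝ × ℝ →L[ℝ] ℝ, HasFDerivAt ss L q ∧
    ∀ v, L v = -(PP q * (v.1 + v.2 + 2 * v.2 / q.2)) / (2 * ss q) := by
  obtain ⟨L, h1, h2⟩ := PP_has h.1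
  refine ⟨_, (h1.const_sub 1).sqrt (sub_pos.2 h.2).ne', fun v => ?_⟩
  simp [h2, ss]
  ring

theorem ss_smooth {q : ℝ × ℝ} (h : q ∈ Om) : ContDiffAt ℝ ∞ ss q :=
  (contDiffAt_const.sub PP_smooth.contDiffAt).sqrt (sub_pos.2 h.2).ne'

theorem U_smooth {q : ℝ × ℝ} (h : q ∈ Om) : ContDiffAt ℝ ∞ U q := by
  have h1 := ss_smooth h
  have h2 := ss_pos h
  refine (((contDiffAt_snd.neg.log (neg_pos.2 h.1).ne').neg.add
    (((contDiffAt_const.add h1).log (by positivity)).sub h1)).div_const 2).sub contDiffAt_const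

theorem U_d {q : ℝ × ℝ} (h : q ∈ Om) (v : ℝ × ℝ) :
    d U v q = (v.2 * (ss q * (-q.2)⁻¹) + (v.1 + v.2) * (1 - ss q) / 2) / 2 := by
  obtain ⟨L, h1, h2⟩ := ss_has h
  have h3 := ss_pos h
  have h4 := ss_sq h
  have h5 := h.1.ne
  have h6 := (((((hasFDerivAt_snd (𝕜 := ℝ) (p := q)).neg.log (neg_pos.2 h.1).ne').neg.add
    (((h1.const_add 1).log (by positivity)).sub h1)).mul_const (2 : ℝ)⁻¹).sub_const 10)
  have h7 : U = fun q => (-Real.log (-q.2) + (Real.log (1 + ss q) - ss q)) * (2 : ℝ)⁻¹ - 10 := by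
    ext q; simp only [U, div_eq_mul_inv]
  rw [h7]
  refine (d_eq h6 v).trans ?_
  have h8 : PP q = (1 - ss q) * (1 + ss q) := by linear_combination h4
  simp [h2, h8]
  field_simp
  ring

theorem U_dd {q : ℝ × ℝ} (h : q ∈ Om) (v v' : ℝ × ℝ) :
    d (d U v) v' q = (v.2 * v'.2 * ss q / q.2 ^ 2 + PP q / (4 * ss q) *
      ((v.1 + v.2 + 2 * v.2 / q.2) * (v'.1 + v'.2 + 2 * v'.2 / q.2))) / 2 := by
  have h0 : d U v =ᶠ[𝓝 q] fun q =>
      (v.2 * (ss q * (-q.2)⁻¹) + (v.1 + v.2) * (1 - ss q) * (2 : ℝ)⁻¹) * (2 : ℝ)⁻¹ := by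
    filter_upwards [isOpen_Om.mem_nhds h] with r hr
    rw [U_d hr]; ring
  rw [(d_congr h0 v').eq_of_nhds]
  obtain ⟨L, h1, h2⟩ := ss_has h
  have h3 := ss_pos h
  have h5 := h.1.ne
  have h4 := (hasDerivAt_inv (neg_pos.2 h.1).ne').comp_hasFDerivAt q
    (hasFDerivAt_snd (𝕜 := ℝ) (p := q)).neg
  have h6 := (((h1.mul h4).const_mul v.2).add
    (((h1.const_sub 1).const_mul (v.1 + v.2)).mul_const (2 : ℝ)⁻¹)).mul_const (2 : ℝ)⁻¹
  refine (d_eq h6 v').trans ?_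
  simp [h2]
  field_simp
  ring

theorem U_pd {q : ℝ × ℝ} (h : q ∈ Om) {v : ℝ × ℝ} (hv : v ≠ 0) : 0 < d (d U v) v q := by
  rw [U_dd h]
  have h1 := ss_pos h
  have h2 := PP_pos h.1
  have h3 := h.1.ne
  by_cases h4 : v.2 = 0
  · have h5 : v.1 ≠ 0 := fun h5 => hv (Prod.ext h5 h4)
    simp only [h4, mul_zero, zero_mul, zero_div, add_zero, zero_add]
    have := mul_self_pos.2 h5
    positivity
  · have h5 := mul_self_pos.2 h4
    have h6 := mul_self_nonneg (v.1 + v.2 + 2 * v.2 / q.2)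
    positivity

theorem U_hdet {q : ℝ × ℝ} (h : q ∈ Om) : hdet U q = Real.exp q.1 * Real.exp q.2 / 4 := by
  have h1 := ss_pos h
  have h3 := h.1.ne
  simp only [hdet, U_dd h, PP]
  field_simp
  ring

theorem U_gx {q : ℝ × ℝ} (h : q ∈ Om) : d U (1, 0) q ∈ Icc (0 : ℝ) 1 := by
  rw [U_d h]
  have h1 := ss_pos h
  have h2 := ss_le h
  constructor <;> simp only [zero_mul, zero_add, add_zero, one_mul] <;> linarith

theorem U_gy {q : ℝ × ℝ} (h : q ∈ Om) (h' : q.2 ≤ -1) : d U (0, 1) q ∈ Icc (0 : ℝ) 1 := by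
  rw [U_d h]
  have h1 := ss_pos h
  have h2 := ss_le h
  have h3 : 0 ≤ (-q.2)⁻¹ := inv_nonneg.2 (by linarith)
  have h4 : (-q.2)⁻¹ ≤ 1 := inv_le_one_of_one_le₀ (by linarith)
  constructor <;> simp only [zero_add, one_mul] <;> nlinarith [mul_nonneg h1.le h3]

end Pool.Agent.Lib.MP_ada39e_an.Ub
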