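import Pool.Agent.Lib.MP_ada39e_an.UbDens

/-!
The unbounded example on `P^1 × P^1` and its non-pluripolar measure.
-/

namespace Pool.Agent.Lib.MP_ada39e_an.Ub

set_option maxHeartbeats 400000

open Filter Topology MeasureTheory Set
open scoped ContDiff Real

/-- moment coordinates on `X` -/
noncomputable def mo (x : X) : ℝ × ℝ := (sg x.1, 1 - sg x.2)

theorem mo1 (x : X) : 0 ≤ (mo x).1 := sg_nonneg _

theorem mo2 (x : X) : (mo x).1 ≤ 1 := sg_le _

theorem mo3 (x : X) : 0 ≤ (mo x).2 := sub_nonneg.2 (sg_le _)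

theorem mo4 (x : X) : (mo x).2 ≤ 1 := sub_le_self _ (sg_nonneg _)

theorem mo_smooth (i j : Bool) : ContDiff ℝ ∞ (mo ∘ chart i j) :=
  ((sg_smooth i).comp contDiff_fst).prodMk (contDiff_const.sub ((sg_smooth j).comp contDiff_snd))

theorem sg_cont : Continuous sg := by
  refine (OnePoint.continuous_iff _).2 ⟨?_, (sg_smooth false).continuous⟩
  rw [coclosedCompact_eq_cocompact]
  change Tendsto (fun z : ℂ => 1 / (1 + ‖z‖ ^ 2)) _ (𝓝 0)
  exact tendsto_const_nhds.div_atTop (tendsto_atTop_add_const_left _ _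
    ((tendsto_pow_atTop two_ne_zero).comp (tendsto_norm_cocompact_atTop (E := ℂ))))

theorem mo_cont : Continuous mo :=
  (sg_cont.comp continuous_fst).prodMk (continuous_const.sub (sg_cont.comp continuous_snd))

theorem mo_T {p : ℂ × ℂ} (hp : p ∈ T) : mo (chart false false p) = mm (Lg p) := by
  simp only [mo, mm, chart, sg_false, Lg, sR_log hp.1, sR_log hp.2]

theorem mo_ne {x : X} (h : x ≠ chart true false 0) : (mo x).1 ≠ 0 ∨ (mo x).2 ≠ 0 := by
  by_contra hc
  rw [not_or, not_not, not_not] at hc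
  obtain ⟨a, b⟩ := x
  refine h (Prod.ext ?_ ?_)
  · induction a using OnePoint.rec
    · simp [chart, c]
    · exfalso
      have h1 := hc.1
      simp only [mo, sg, OnePoint.elim_some] at h1
      exact absurd h1 (by positivity)
  · induction b using OnePoint.rec
    · exfalso
      have h1 := hc.2
      simp [mo, sg] at h1
    · rename_i w
      have h1 := hc.2
      simp only [mo, sg, OnePoint.elim_some] at h1
      have h2 : ‖w‖ ^ 2 = 0 := by field_simp at h1; linarith
      have h3 : w = 0 := by simpa using h2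
      simp [chart, c, h3]

/-- the singular solution -/
noncomputable def ps (x : X) : EReal := if (mo x).2 = 0 then ⊥ else (gg (mo x) : ℝ)

/-- profiles of the smooth approximants -/
noncomputable def ap (j l σ τ : ℝ) : ℝ := if τ = 0 then -j else tr j l (pr σ τ)

theorem pot_ap (j l : ℝ) :
    pot (ap j l) = fun q => pl 1 1 1 1 q + tr j l (pr (sR q.1) (1 - sR q.2)) := by
  ext q
  simp only [pot, ap, if_neg (sub_pos.2 (sR_lt q.2)).ne']

theorem good_ap (j : ℝ) {l : ℝ} (hl : 0 < l) : Good (pot (ap j l)) := by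
  rw [pot_ap]; exact good_trF j hl

theorem lift_ap (j l : ℝ) (x : X) :
    lift (ap j l) x = if (mo x).2 = 0 then -j else tr j l (gg (mo x)) := rfl

theorem ap_smooth (j : ℝ) {l : ℝ} (hl : 0 < l) (a b : Bool) :
    ContDiff ℝ ∞ (lift (ap j l) ∘ chart a b) := by
  refine contDiff_iff_contDiffAt.2 fun p => ?_
  have h1 := (mo_smooth a b).contDiffAt (x := p)
  by_cases h : (mo (chart a b p)).2 = 0
  · obtain ⟨ε, hε, h2⟩ := pr_small (j + l)
    refine (contDiffAt_const (c := -j)).congr_of_eventuallyEq ?_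
    filter_upwards [h1.snd.continuousAt.eventually_lt continuousAt_const
      (show (mo (chart a b p)).2 < ε by rwa [h])] with q hq
    simp only [Function.comp, lift_ap]
    split_ifs with h3
    · rfl
    · have h4 := h2 _ _ (mo1 (chart a b q)) (mo2 _) (lt_of_le_of_ne (mo3 _) (Ne.symm h3)) hq
      rw [tr, Th_zero, mul_zero, add_zero]
      rw [div_le_iff₀ hl, gg]
      linarith
  · have h2 := (gg_smooth (mo1 _) (mo2 _) (lt_of_le_of_ne (mo3 _) (Ne.symm h)) (mo4 _)).comp p h1
    refine (contDiffAt_const.add (contDiffAt_const.mul (Th_smooth.contDiffAt.comp p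
      ((h2.add contDiffAt_const).div_const l))) : ContDiffAt ℝ ∞
        (fun q => -j + l * Th ((gg (mo (chart a b q)) + j) / l)) p).congr_of_eventuallyEq ?_
    filter_upwards [h1.snd.continuousAt.eventually_ne h] with q hq
    exact if_neg hq

theorem ap_psh (j : ℝ) {l : ℝ} (hl : 0 < l) : SmoothPSH (lift (ap j l)) :=
  smoothPSH_lift (good_ap j hl) (ap_smooth j hl)

theorem psh_ps : PSH ps := by
  refine ⟨⟨chart false true 0, ?_⟩, fun k => lift (ap k 1), fun k => ap_psh _ one_pos,
    fun a b h x => ?_, fun x => ?_⟩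
  · have : (mo (chart false true 0)).2 ≠ 0 := by simp [mo, chart, c, sg]
    rw [ps, if_neg this]
    exact EReal.coe_ne_bot _
  · have h1 : (a : ℝ) ≤ b := Nat.cast_le.2 h
    simp only [lift_ap]
    split_ifs
    · linarith
    · have := Th_anti (show gg (mo x) + a ≤ gg (mo x) + b by linarith)
      simp only [tr, div_one, one_mul] at this ⊢
      linarith
  · simp only [lift_ap, ps]
    split_ifs
    · exact EReal.tendsto_coe_atBot.comp (tendsto_neg_atTop_atBot.comp tendsto_natCast_atTop_atTop)
    · refine tendsto_const_nhds.congr' ?_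
      filter_upwards [tendsto_natCast_atTop_atTop.eventually_ge_atTop (1 - gg (mo x))] with k hk
      rw [tr, div_one, one_mul, Th_id (by linarith)]
      congr 1
      ring

theorem ap_mass (j k : ℕ) : maSmooth (lift (ap j (dl k))) univ = 8 :=
  maSmooth_mass (good_ap j (dl_pos k)) (C := j) fun _ _ => by
    unfold ap
    split_ifs
    · exact le_rfl
    · exact le_add_of_nonneg_right (mul_nonneg (dl_pos k).le (Th_nonneg _))

theorem ap_anti (j : ℕ) : Antitone fun k => lift (ap j (dl k)) := fun a b h x => by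
  simp only [lift_ap]
  split_ifs
  · exact le_rfl
  · exact add_le_add_right (Th_scale (dl_pos b) (dl_anti h)) _

theorem trunc_eq (j : ℕ) (x : X) : (max (ps x) (-(j : ℝ) : ℝ)).toReal =
    if (mo x).2 = 0 then -(j : ℝ) else max (gg (mo x)) (-j) := by
  unfold ps
  split_ifs
  · rw [max_eq_right bot_le, EReal.toReal_coe]
  · rw [← EReal.coe_strictMono.monotone.map_max, EReal.toReal_coe]

theorem ap_tendsto (j : ℕ) (x : X) : Tendsto (fun k => lift (ap j (dl k)) x) atTop
    (𝓝 (max (ps x) (-(j : ℝ) : ℝ)).toReal) := by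
  simp only [lift_ap, trunc_eq]
  split_ifs
  · exact tendsto_const_nhds
  · have h3 := (tendsto_const_nhds (x := max (gg (mo x)) (-(j : ℝ)))).add dl_tendsto
    rw [add_zero] at h3
    exact tendsto_of_tendsto_of_tendsto_of_le_of_le tendsto_const_nhds h3
      (fun k => (tr_bounds _ _ (dl_pos k)).1) fun k => (tr_bounds _ _ (dl_pos k)).2

theorem trunc_bd (j : ℕ) : ∃ C, ∀ x, |(max (ps x) (-(j : ℝ) : ℝ)).toReal| ≤ C := by
  refine ⟨1 + j, fun x => ?_⟩
  have h0 := Nat.cast_nonneg (α := ℝ) j
  rw [trunc_eq]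
  split_ifs with h
  · exact abs_le.2 ⟨by linarith, by linarith⟩
  · have := pr_le_one (mo1 x) (mo2 x) (lt_of_le_of_ne (mo3 x) (Ne.symm h)) (mo4 x)
    exact abs_le.2 ⟨le_max_of_le_right (by linarith), max_le (by unfold gg; linarith) (by linarith)⟩

theorem mass_FF : volume.withDensity (dens FF) univ = 8 := by
  refine dens_mass good_FF (C := 0) fun p => ?_
  have h1 := F2_le_FF p
  rw [F2_zero, ← pl_one] at h1
  linarith

/-- the part of the torus where the solution exceeds `-j` -/
def SS (j : ℕ) : Set (ℂ × ℂ) := T ∩ {p | -(j : ℝ) < gg (mm (Lg p))}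

theorem ggmm_cont : Continuous fun q => gg (mm q) :=
  continuous_iff_continuousAt.2 fun q => ((gg_mm q).comp q mm_smooth.contDiffAt).continuousAt

theorem SS_meas (j : ℕ) : MeasurableSet (SS j) := by
  have hL : Measurable Lg := by unfold Lg; fun_prop
  exact isOpen_T.measurableSet.inter
    (measurableSet_lt measurable_const (ggmm_cont.measurable.comp hL))

theorem dens_lim {j : ℕ} {p : ℂ × ℂ} (hp : p ∈ SS j) :
    Tendsto (fun k => dens (pot (ap j (dl k))) p) atTop (𝓝 (dens FF p)) := by
  refine tendsto_const_nhds.congr' ?_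
  filter_upwards [dl_tendsto.eventually (gt_mem_nhds (show 0 < gg (mm (Lg p)) + j by
    linarith [hp.2.out]))] with k hk
  have h0 : hdet FF (Lg p) = hdet (pot (ap j (dl k))) (Lg p) := by
    refine hdet_congr ?_
    filter_upwards [continuousAt_const.eventually_lt
      (ggmm_cont.add continuous_const).continuousAt hk] with q hq
    have h2 := dl_pos k
    simp only [FF, pot_ap, tr]
    rw [Th_id ((one_le_div h2).2 (show dl k ≤ pr (sR q.1) (1 - sR q.2) + j from hq.le))]
    field_simp
    ring
  simp only [dens, h0]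

theorem exists_BT' (j : ℕ) : ∃ μ : Measure X,
    IsBT (fun x => (max (ps x) (-(j : ℝ) : ℝ)).toReal) μ ∧ μ univ = 8 ∧
      ∀ A, MeasurableSet A → A ⊆ SS j →
        volume.withDensity (dens FF) A ≤ μ (chart false false '' A) := by
  let P : ℕ → ProbabilityMeasure X := fun k => ⟨(8 : ENNReal)⁻¹ • maSmooth (lift (ap j (dl k))),
    ⟨by rw [Measure.smul_apply, ap_mass, smul_eq_mul, ENNReal.inv_mul_cancel] <;> simp⟩⟩
  have hP : ∀ k, maSmooth (lift (ap j (dl k))) = (8 : ENNReal) • (P k : Measure X) := fun k => by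
    simp only [P, ProbabilityMeasure.coe_mk, smul_smul]
    rw [ENNReal.mul_inv_cancel (by simp) (by simp), one_smul]
  obtain ⟨Q, n, hn, hQ⟩ := CompactSpace.tendsto_subseq P
  have h8 : ((8 : ENNReal) • (Q : Measure X)) univ = 8 := by simp
  refine ⟨(8 : ENNReal) • (Q : Measure X), ⟨trunc_bd j, ⟨by rw [h8]; simp⟩,
    fun k => lift (ap j (dl (n k))), fun k => ap_psh _ (dl_pos _),
    (ap_anti j).comp_monotone hn.monotone,
    fun x => (ap_tendsto j x).comp hn.tendsto_atTop, fun g => ?_⟩, h8, fun A hA hAS => ?_⟩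
  · simp only [hP, integral_smul_measure]
    exact (ProbabilityMeasure.tendsto_iff_forall_integral_tendsto.1 hQ
      (BoundedContinuousFunction.mkOfCompact g)).const_smul _
  have : IsFiniteMeasure (volume.withDensity (dens FF)) := ⟨by rw [mass_FF]; simp⟩
  rw [hA.measure_eq_iSup_isCompact_of_ne_top (measure_ne_top _ _)]
  refine iSup_le fun C => iSup_le fun hCA => iSup_le fun hC => ?_
  refine le_trans ?_ (measure_mono (image_mono hCA))
  have h1 := ProbabilityMeasure.limsup_measure_closed_le_of_tendsto hQ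
    (hC.image chart_open.continuous).isClosed
  have h2 : ∀ k, ∫⁻ p in C, dens (pot (ap j (dl (n k)))) p =
      8 * (P (n k) : Measure X) (chart false false '' C) := fun k => by
    rw [← smul_eq_mul, ← Measure.smul_apply, ← hP, maSmooth_lift (good_ap _ (dl_pos _)).smooth,
      chart_emb.map_apply, preimage_image_eq _ chart_emb.injective,
      withDensity_apply _ hC.measurableSet]
  rw [withDensity_apply _ hC.measurableSet,
    setLIntegral_congr_fun hC.measurableSet (g := fun p => liminf
      (fun k => dens (pot (ap j (dl (n k)))) p) atTop) fun p hp =>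
      (((dens_lim (hAS (hCA hp))).comp hn.tendsto_atTop).liminf_eq).symm]
  refine (lintegral_liminf_le fun k => dens_meas (good_ap _ (dl_pos _)).smooth).trans ?_
  refine le_trans liminf_le_limsup ?_
  simp only [h2]
  rw [ENNReal.limsup_const_mul_of_ne_top (by simp), Measure.smul_apply, smul_eq_mul]
  exact mul_le_mul_right h1 _

theorem ps_T {p : ℂ × ℂ} (hp : p ∈ T) : ps (chart false false p) = gg (mm (Lg p)) := by
  rw [ps, mo_T hp, if_neg (show (mm (Lg p)).2 ≠ 0 from (sub_pos.2 (sR_lt _)).ne')]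

theorem npma_ps : IsNPMA ps ((volume.withDensity (dens FF)).map (chart false false)) := by
  choose μ h1 h2 h3 using exists_BT'
  refine ⟨μ, h1, fun B hB => ?_⟩
  set ν := volume.withDensity (dens FF) with hν
  have hm : ν univ = 8 := mass_FF
  have : IsFiniteMeasure ν := ⟨by rw [hm]; simp⟩
  have h4 : ∀ A : Set (ℂ × ℂ), Tendsto (fun j => ν (A ∩ SS j)) atTop (𝓝 (ν A)) := fun A => by
    have h5 : Monotone fun j => A ∩ SS j := fun a b hab p hp =>
      ⟨hp.1, hp.2.1, (neg_le_neg (Nat.cast_le.2 hab)).trans_lt hp.2.2.out⟩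
    have h6 : ν (⋃ j, A ∩ SS j) = ν A := by
      refine measure_congr ((withDensity_absolutelyContinuous _ _).ae_le (ae_T.mono fun p hp => ?_))
      refine propext ⟨fun h => (mem_iUnion.1 h).choose_spec.1, fun h => ?_⟩
      obtain ⟨j, hj⟩ := exists_nat_gt (-gg (mm (Lg p)))
      exact mem_iUnion.2 ⟨j, h, hp, neg_lt.1 hj⟩
    exact h6 ▸ tendsto_measure_iUnion_atTop h5
  have hB' := chart_emb.measurable hB
  rw [chart_emb.map_apply]
  have h7 : ν (chart false false ⁻¹' B) = 8 - ν (chart false false ⁻¹' B)ᶜ := by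
    rw [← hm, ← measure_compl hB'.compl (measure_ne_top _ _), compl_compl]
  have h9 := ENNReal.Tendsto.sub (tendsto_const_nhds (x := (8 : ENNReal)))
    (h4 (chart false false ⁻¹' B)ᶜ) (Or.inl (by simp))
  rw [← h7] at h9
  refine tendsto_of_tendsto_of_tendsto_of_le_of_le (h4 _) h9 (fun j => ?_) fun j => ?_
  · refine (h3 j _ (hB'.inter (SS_meas j)) inter_subset_right).trans (measure_mono ?_)
    rintro _ ⟨p, hp, rfl⟩
    refine ⟨hp.1, ?_⟩
    change _ < ps _
    rw [ps_T hp.2.1]
    exact EReal.coe_lt_coe_iff.2 hp.2.2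
  · have := (h1 j).2.1
    refine (measure_mono inter_subset_left).trans ?_
    have h8 : μ j B = 8 - μ j Bᶜ := by
      rw [← h2 j, ← measure_compl hB.compl (measure_ne_top _ _), compl_compl]
    rw [h8]
    refine tsub_le_tsub_left ((h3 j _ (hB'.compl.inter (SS_meas j)) inter_subset_right).trans
      (measure_mono ?_)) _
    rintro _ ⟨p, hp, rfl⟩
    exact hp.1

/-- the density on `X` -/
noncomputable def fU (x : X) : ℝ := fm (mo x)

theorem fU_meas : Measurable fU := fm_meas.comp mo_cont.measurable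

theorem fU_nonneg (x : X) : 0 ≤ fU x := fm_nonneg (mo1 x) (mo2 x) (mo3 x) (mo4 x)

theorem le_fU {x : X} (h : x ≠ chart true false 0) : 1 / 20 ≤ fU x :=
  le_fm (mo1 x) (mo2 x) (mo3 x) (mo4 x) (mo_ne h)

theorem fU_smooth {i j : Bool} {p : ℂ × ℂ} (h : chart i j p ≠ chart true false 0) :
    ContDiffAt ℝ ∞ (fU ∘ chart i j) p :=
  fm_smooth (s := mo ∘ chart i j) (mo_smooth i j).contDiffAt (fun _ => mo1 _) (fun _ => mo2 _)
    (fun _ => mo3 _) (fun _ => mo4 _) (mo_ne h)

theorem ps_bot (x : X) : ps x = ⊥ ↔ x.2 = OnePoint.some 0 := by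
  obtain ⟨a, b⟩ := x
  have h0 : ps (a, b) = ⊥ ↔ 1 - sg b = 0 := by
    unfold ps
    split_ifs with h
    · exact iff_of_true rfl h
    · exact iff_of_false (EReal.coe_ne_bot _) h
  rw [h0]
  induction b using OnePoint.rec
  · simp [sg]
  · rename_i w
    simp only [sg, OnePoint.elim_some, OnePoint.some_eq_iff]
    refine ⟨fun h1 => ?_, fun h => by simp [h]⟩
    have h2 : ‖w‖ ^ 2 = 0 := by field_simp at h1; linarith
    simpa using h2

theorem density_eq' : (maSmooth 0).withDensity (fun x => ENNReal.ofReal (fU x)) =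
    (volume.withDensity (dens FF)).map (chart false false) := by
  have h1 : maSmooth 0 = (volume.withDensity (dens (pl 1 1 1 1))).map (chart false false) := by
    rw [← pot_zero]
    exact maSmooth_lift (g := fun _ _ => 0) (pot_zero ▸ good_one.smooth)
  ext B hB
  rw [withDensity_apply _ hB, h1, setLIntegral_map hB fU_meas.ennreal_ofReal chart_emb.measurable,
    chart_emb.map_apply,
    withDensity_apply _ (chart_emb.measurable hB),
    setLIntegral_withDensity_eq_setLIntegral_mul _ (dens_meas good_one.smooth)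
      (g := fun p => ENNReal.ofReal (fU (chart false false p)))
      (fU_meas.comp chart_emb.measurable).ennreal_ofReal (chart_emb.measurable hB)]
  refine lintegral_congr_ae (ae_restrict_of_ae (ae_T.mono fun p hp => ?_))
  simp only [Pi.mul_apply, dens]
  rw [← ENNReal.ofReal_mul' (fU_nonneg _), fU, mo_T hp, fm,
    if_neg (show (mm (Lg p)).2 ≠ 0 from (sub_pos.2 (sR_lt _)).ne'), hdet_eq]
  congr 1
  ring

end Pool.Agent.Lib.MP_ada39e_an.Ub
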