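import Pool.Agent.Lib.MP_ada39e_an.UbLocal

/-!
Gluing the unbounded local model to the full mass potential.
-/

namespace Pool.Agent.Lib.MP_ada39e_an.Ub

set_option maxHeartbeats 400000

open Filter Topology MeasureTheory Set
open scoped ContDiff Real

/-- cut-off square root -/
noncomputable def sc (P : ℝ) : ℝ := √(1 / 2 + Th (2 - 4 * P) / 4)

/-- cut-off profile -/
noncomputable def Gs (P : ℝ) : ℝ := Real.log (1 + sc P) - sc P

/-- cut-off of `-y` -/
noncomputable def Q (y : ℝ) : ℝ := 1 + Th (-y - 1)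

/-- the globally defined first piece, in the variables `|z|^2` and `|w|^2` -/
noncomputable def G0 (a t : ℝ) : ℝ :=
  (-Real.log (Q (Real.log t)) + Gs (4 * a * t * Q (Real.log t) ^ 2)) / 2 - 10

/-- the difference of the two pieces -/
noncomputable def K (σ τ : ℝ) : ℝ :=
  G0 ((1 - σ) / σ) (τ / (1 - τ)) + Real.log σ + Real.log (1 - τ) - 3 / 4 * f2 0 τ

/-- the profile -/
noncomputable def pr (σ τ : ℝ) : ℝ := 3 / 4 * f2 0 τ + if σ = 0 then 0 else Th (K σ τ)

theorem sc_arg (P : ℝ) : 0 < 1 / 2 + Th (2 - 4 * P) / 4 := by linarith [Th_nonneg (2 - 4 * P)]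

theorem sc_pos (P : ℝ) : 0 < sc P := Real.sqrt_pos.2 (sc_arg P)

theorem sc_smooth : ContDiff ℝ ∞ sc :=
  (contDiff_const.add ((Th_smooth.comp (by fun_prop)).div_const 4)).sqrt fun P => (sc_arg P).ne'

theorem Gs_smooth : ContDiff ℝ ∞ Gs :=
  ((contDiff_const.add sc_smooth).log fun P => by linarith [sc_pos P]).sub sc_smooth

theorem Gs_le (P : ℝ) : Gs P ≤ 0 := by
  have := Real.log_le_sub_one_of_pos (show 0 < 1 + sc P by linarith [sc_pos P])
  unfold Gs; linarith

theorem le_Gs {P : ℝ} (h : 0 ≤ P) : -1 ≤ Gs P := by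
  have h1 : sc P ≤ 1 := Real.sqrt_le_one.2 (by
    linarith [Th_mono (show 2 - 4 * P ≤ 2 by linarith), Th_id (show (1 : ℝ) ≤ 2 by norm_num)])
  have h2 := Real.log_nonneg (show 1 ≤ 1 + sc P by linarith [sc_pos P])
  unfold Gs; linarith

theorem sc_eq {P : ℝ} (h : P ≤ 1 / 4) : sc P = √(1 - P) := by
  rw [sc, Th_id (by linarith)]; congr 1; ring

theorem one_le_Q (y : ℝ) : 1 ≤ Q y := le_add_of_nonneg_right (Th_nonneg _)

theorem le_Q (y : ℝ) : -y ≤ Q y := by unfold Q; linarith [le_Th (-y - 1)]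

theorem Q_eq {y : ℝ} (h : y ≤ -2) : Q y = -y := by rw [Q, Th_id (by linarith)]; ring

theorem Q_smooth : ContDiff ℝ ∞ Q := contDiff_const.add (Th_smooth.comp (by fun_prop))

theorem G0_le (a t : ℝ) : G0 a t ≤ -Real.log (Q (Real.log t)) / 2 - 10 := by
  unfold G0; linarith [Gs_le (4 * a * t * Q (Real.log t) ^ 2)]

theorem G0_le' (a t : ℝ) : G0 a t ≤ -10 := by
  linarith [G0_le a t, Real.log_nonneg (one_le_Q (Real.log t))]

theorem f2_zero (τ : ℝ) : f2 0 τ = -Real.log (1 - Real.log τ) := by simp [f2]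

section smooth

variable {E : Type} [NormedAddCommGroup E] [NormedSpace ℝ E] {σ τ : E → ℝ} {p : E}

theorem G0_smooth (hσ : ContDiffAt ℝ ∞ σ p) (hτ : ContDiffAt ℝ ∞ τ p) (h : τ p ≠ 0) :
    ContDiffAt ℝ ∞ (fun p => G0 (σ p) (τ p)) p := by
  have h1 : ContDiffAt ℝ ∞ (fun p => Q (Real.log (τ p))) p :=
    Q_smooth.contDiffAt.comp p (hτ.log h)
  exact (((h1.log (by linarith [one_le_Q (Real.log (τ p))])).neg.add
    (Gs_smooth.contDiffAt.comp p (((contDiffAt_const.mul hσ).mul hτ).mul (h1.pow 2)))).div_const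
      2).sub contDiffAt_const

theorem f2_smooth (hτ : ContDiffAt ℝ ∞ τ p) (h : 0 < τ p) (h1 : τ p ≤ 1) :
    ContDiffAt ℝ ∞ (fun p => f2 0 (τ p)) p := by
  simp only [f2_zero]
  exact ((contDiffAt_const.sub (hτ.log h.ne')).log
    (by linarith [Real.log_nonpos h.le h1])).neg

end smooth

theorem f2_nonpos {τ : ℝ} (h : 0 < τ) (h1 : τ ≤ 1) : f2 0 τ ≤ 0 := by
  rw [f2_zero]
  exact neg_nonpos.2 (Real.log_nonneg (by linarith [Real.log_nonpos h.le h1]))

theorem pr_eq_f2 {σ τ : ℝ} (h1 : |1 - τ| < 1)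
    (h : Real.log |σ| - 3 / 4 * f2 0 τ < 2 ∨ σ = 0) : pr σ τ = 3 / 4 * f2 0 τ := by
  unfold pr
  split_ifs with h3
  · exact add_zero _
  have h4 := h.resolve_right h3
  have h7 := Real.log_nonpos (abs_nonneg (1 - τ)) h1.le
  rw [Real.log_abs] at h4 h7
  rw [Th_zero, add_zero]
  rw [K]
  linarith [G0_le' ((1 - σ) / σ) (τ / (1 - τ))]

/-- the profile as a function on the plane -/
noncomputable def gg (s : ℝ × ℝ) : ℝ := pr s.1 s.2

theorem gg_smooth {s : ℝ × ℝ} (h0 : 0 ≤ s.1) (h0' : s.1 ≤ 1) (h : 0 < s.2) (h1 : s.2 ≤ 1) :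
    ContDiffAt ℝ ∞ gg s := by
  have h2 := f2_smooth (τ := fun s : ℝ × ℝ => s.2) contDiffAt_snd h h1
  have h2' : ContDiffAt ℝ ∞ (fun s : ℝ × ℝ => 3 / 4 * f2 0 s.2) s := contDiffAt_const.mul h2
  have h3 : ∀ᶠ q : ℝ × ℝ in 𝓝 s, |1 - q.2| < 1 :=
    ContinuousAt.eventually_lt (by fun_prop) continuousAt_const
      (abs_lt.2 ⟨by linarith, by linarith⟩)
  by_cases h4 : s.1 = 0
  · refine h2'.congr_of_eventuallyEq ?_
    have h5 : ContinuousAt (fun q : ℝ × ℝ => |q.1| * Real.exp (-(3 / 4 * f2 0 q.2))) s :=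
      (continuous_fst.abs.continuousAt).mul h2'.continuousAt.neg.rexp
    filter_upwards [h3, h5.eventually_lt continuousAt_const
      (show _ < (1 : ℝ) by rw [h4]; simp)] with q hq hq'
    refine pr_eq_f2 hq (or_iff_not_imp_right.2 fun h6 => ?_)
    have h7 := Real.log_nonpos (by positivity) hq'.le
    rw [Real.log_mul (abs_pos.2 h6).ne' (Real.exp_pos _).ne', Real.log_exp] at h7
    linarith
  by_cases h5 : s.2 = 1
  · refine h2'.congr_of_eventuallyEq ?_
    have h6 : ContinuousAt (fun q : ℝ × ℝ => Real.log |q.1| - 3 / 4 * f2 0 q.2) s :=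
      ((continuous_fst.abs.continuousAt).log (abs_pos.2 h4).ne').sub h2'.continuousAt
    filter_upwards [h3, h6.eventually_lt continuousAt_const (show _ < (2 : ℝ) by
      rw [h5, f2_zero, Real.log_abs]; simp; linarith [Real.log_nonpos h0 h0'])] with q hq hq'
    exact pr_eq_f2 hq (Or.inl hq')
  have h5' : 1 - s.2 ≠ 0 := sub_ne_zero.2 (Ne.symm h5)
  have h6 : ContDiffAt ℝ ∞ (fun s : ℝ × ℝ => K s.1 s.2) s :=
    (((G0_smooth ((contDiffAt_const.sub contDiffAt_fst).div contDiffAt_fst h4)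
      (contDiffAt_snd.div (contDiffAt_const.sub contDiffAt_snd) h5')
      (div_ne_zero h.ne' h5')).add (contDiffAt_fst.log h4)).add
        ((contDiffAt_const.sub contDiffAt_snd).log h5')).sub h2'
  refine (h2'.add (Th_smooth.contDiffAt.comp s h6)).congr_of_eventuallyEq ?_
  filter_upwards [continuous_fst.continuousAt.eventually_ne h4] with q hq
  simp only [gg, pr, if_neg hq, Function.comp]

theorem pr_le {σ τ m : ℝ} (h0 : 0 ≤ σ) (h0' : σ ≤ 1) (h1 : 0 < τ) (h2 : τ ≤ 1) (hm : 1 ≤ m)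
    (h3 : m ≤ 1 - Real.log τ) (h4 : m ≤ Q (Real.log (τ / (1 - τ)))) :
    pr σ τ ≤ 1 - Real.log m / 2 := by
  have h5 := Real.log_nonneg hm
  have h6 := Real.log_le_log (by linarith) h3
  have h7 := Real.log_le_log (by linarith) h4
  have h8 := Real.log_nonpos h0 h0'
  have h9 := Real.log_nonpos (sub_nonneg.2 h2) (sub_le_self 1 h1.le)
  have h10 := G0_le ((1 - σ) / σ) (τ / (1 - τ))
  unfold pr
  split_ifs
  · rw [f2_zero]; linarith
  · have h11 := Th_le (K σ τ)
    rcases le_total (K σ τ) 0 with h | h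
    · rw [max_eq_right h] at h11; rw [f2_zero]; linarith
    · rw [max_eq_left h] at h11
      have : 3 / 4 * f2 0 τ + K σ τ ≤ -Real.log m / 2 := by unfold K; linarith
      linarith

theorem pr_le_one {σ τ : ℝ} (h0 : 0 ≤ σ) (h0' : σ ≤ 1) (h1 : 0 < τ) (h2 : τ ≤ 1) :
    pr σ τ ≤ 1 := by
  simpa using pr_le h0 h0' h1 h2 le_rfl (by linarith [Real.log_nonpos h1.le h2]) (one_le_Q _)

theorem pr_small (M : ℝ) : ∃ ε > 0, ∀ σ τ : ℝ, 0 ≤ σ → σ ≤ 1 → 0 < τ → τ < ε → pr σ τ ≤ -M := by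
  set m := Real.exp (2 * |M| + 2) with hm
  have h1 : 1 ≤ m := Real.one_le_exp (by positivity)
  refine ⟨Real.exp (-m) / 2, by positivity, fun σ τ h0 h0' h2 h3 => ?_⟩
  have h4 : Real.exp (-m) ≤ 1 := Real.exp_le_one_iff.2 (by linarith)
  have h5 : τ / (1 - τ) ≤ Real.exp (-m) := by
    rw [div_le_iff₀ (by linarith)]; nlinarith [Real.exp_pos (-m)]
  have h6 : Real.log τ ≤ -m := (Real.log_le_iff_le_exp h2).2 (by linarith [Real.exp_pos (-m)])
  have h7 : Real.log (τ / (1 - τ)) ≤ -m :=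
    (Real.log_le_iff_le_exp (div_pos h2 (by linarith))).2 h5
  have h8 := pr_le h0 h0' h2 (by linarith) h1 (by linarith)
    (by linarith [le_Q (Real.log (τ / (1 - τ)))])
  rw [hm, Real.log_exp] at h8
  linarith [le_abs_self M]

/-- the first piece in logarithmic coordinates -/
noncomputable def G1 (q : ℝ × ℝ) : ℝ := G0 (Real.exp q.1) (Real.exp q.2)

/-- the convex potential -/
noncomputable def FF (q : ℝ × ℝ) : ℝ := pl 1 1 1 1 q + pr (sR q.1) (1 - sR q.2)

theorem G1_smooth : ContDiff ℝ ∞ G1 := contDiff_iff_contDiffAt.2 fun q =>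
  G0_smooth (by fun_prop) (by fun_prop) (Real.exp_pos _).ne'

theorem log_sR (x : ℝ) : Real.log (sR x) = -Real.log (1 + Real.exp x) := by
  rw [sR, one_div, Real.log_inv]

/-- the second piece -/
noncomputable def F3 (q : ℝ × ℝ) : ℝ := pl 1 1 1 1 q + 3 / 4 * (F2 0 q - pl 1 1 1 1 q)

theorem lin_deriv : deriv (fun r : ℝ => 3 / 4 * r) = fun _ => 3 / 4 := by ext; simp

theorem good_F3 : Good F3 :=
  good_one.comb (θ := fun r => 3 / 4 * r) (good_F2 0).1 (fun _ => by fun_prop)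
    (fun _ => by rw [lin_deriv]; norm_num) fun _ => by simp

theorem F3_dd (p v v' : ℝ × ℝ) : d (d F3 v) v' p =
    1 / 4 * d (d (pl 1 1 1 1) v) v' p + 3 / 4 * d (d (F2 0) v) v' p := by
  have := comb_dd (θ := fun r => 3 / 4 * r) good_one.smooth (good_F2 0).1.smooth
    (fun _ => by fun_prop) v v' p
  refine this.trans ?_
  simp only [lin_deriv, deriv_const']
  ring

theorem F2_le_F3 (q : ℝ × ℝ) : F2 0 q ≤ F3 q := by
  have := f2_nonpos (τ := 1 - sR q.2) (sub_pos.2 (sR_lt _)) (sub_le_self _ (sR_pos _).le)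
  simp only [F3, F2]
  linarith

theorem FF_eq : FF = fun q => F3 q + Th (G1 q - F3 q) := by
  ext q
  have h1 : (1 - sR q.1) / sR q.1 = Real.exp q.1 := by unfold sR; field_simp; ring
  have h2 : (1 - sR q.2) / sR q.2 = Real.exp q.2 := by unfold sR; field_simp; ring
  have h3 : K (sR q.1) (1 - sR q.2) = G1 q - F3 q := by
    simp only [F3, F2, K, sub_sub_cancel, h1, h2, log_sR, G1, pl_one]
    ring
  simp only [FF, pr, if_neg (sR_pos _).ne', h3]
  simp only [F3, F2]
  ring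

theorem F2_zero (q : ℝ × ℝ) : F2 0 q = Real.log (1 + Real.exp q.1) + Real.log (1 + Real.exp q.2) -
    Real.log (1 + Real.log (1 + Real.exp (-q.2))) := by
  rw [F2, pl_one, f2_zero, ← sR_neg, log_sR, sub_neg_eq_add, sub_eq_add_neg]

theorem log_exp_le (y : ℝ) : Real.log (1 + Real.exp y) ≤ max y 0 + 1 := by
  rw [Real.log_le_iff_le_exp (by positivity), Real.exp_add]
  have h1 : Real.exp y ≤ Real.exp (max y 0) := Real.exp_le_exp.2 (le_max_left _ _)
  have h2 : 1 ≤ Real.exp (max y 0) := Real.one_le_exp (le_max_right _ _)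
  nlinarith [Real.add_one_le_exp (1 : ℝ)]

theorem le_log_exp (y : ℝ) : y ≤ Real.log (1 + Real.exp y) :=
  (Real.le_log_iff_exp_le (by positivity)).2 (by linarith)

theorem log_exp_nonneg (y : ℝ) : 0 ≤ Real.log (1 + Real.exp y) :=
  Real.log_nonneg (by linarith [Real.exp_pos y])

theorem inside {q : ℝ × ℝ} (h' : -1 ≤ G1 q - F3 q) : q.2 < -2 ∧ PP q < 1 / 4 := by
  have h : -1 ≤ G1 q - F2 0 q := by linarith [F2_le_F3 q]
  rw [F2_zero] at h
  have h1 := log_exp_nonneg q.1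
  have h2 := log_exp_nonneg q.2
  have h3 := log_exp_nonneg (-q.2)
  have h4 := log_exp_le (-q.2)
  have h5 := G0_le (Real.exp q.1) (Real.exp q.2)
  have h6 : q.2 < -2 := by
    by_contra hc
    have h7 : max (-q.2) 0 ≤ 2 := max_le (by linarith) (by norm_num)
    have h8 := Real.log_le_sub_one_of_pos (show 0 < 1 + Real.log (1 + Real.exp (-q.2)) by linarith)
    have h9 := G0_le' (Real.exp q.1) (Real.exp q.2)
    unfold G1 at h
    linarith
  refine ⟨h6, ?_⟩
  by_contra hc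
  rw [Real.log_exp, Q_eq h6.le] at h5
  rw [max_eq_left (by linarith)] at h4
  have h7 : Real.log (1 + Real.log (1 + Real.exp (-q.2))) ≤ Real.log (2 * -q.2) :=
    Real.log_le_log (by linarith) (by linarith)
  rw [Real.log_mul two_ne_zero (by linarith)] at h7
  have h8 : (16 : ℝ)⁻¹ ≤ Real.exp q.1 * Real.exp q.2 * (-q.2) ^ 2 := by
    unfold PP at hc; nlinarith
  have h9 := Real.log_le_log (by norm_num) h8
  rw [Real.log_mul (by positivity) (pow_pos (by linarith) 2).ne',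
    Real.log_mul (by positivity) (by positivity), Real.log_exp, Real.log_exp, Real.log_pow,
    Real.log_inv, show (16 : ℝ) = 2 ^ 4 by norm_num, Real.log_pow] at h9
  have h10 := Real.log_le_sub_one_of_pos (show 0 < -q.2 / 3 by linarith)
  rw [Real.log_div (by linarith) three_ne_zero] at h10
  have h11 := Real.log_le_sub_one_of_pos (show (0 : ℝ) < 3 by norm_num)
  have h12 := Real.log_two_lt_d9
  have h13 := le_log_exp q.1
  unfold G1 at h
  push_cast at h9
  linarith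

theorem G1_eq {q : ℝ × ℝ} (h : q.2 < -2 ∧ PP q < 1 / 4) : G1 =ᶠ[𝓝 q] U := by
  filter_upwards [continuous_snd.continuousAt.eventually_lt continuousAt_const h.1,
    PP_smooth.continuous.continuousAt.eventually_lt continuousAt_const h.2] with r h1 h2
  have h3 : 4 * Real.exp r.1 * Real.exp r.2 * (-r.2) ^ 2 = PP r := by unfold PP; ring
  simp only [G1, G0, Real.log_exp, Q_eq h1.le, h3, Gs, sc_eq h2.le, U, ss]

theorem mem_Om {q : ℝ × ℝ} (h : q.2 < -2 ∧ PP q < 1 / 4) : q ∈ Om :=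
  ⟨by linarith [h.1], by linarith [h.2]⟩

theorem FF_smooth : ContDiff ℝ ∞ FF := by
  rw [FF_eq]; exact comb_smooth good_F3.smooth G1_smooth fun _ => Th_smooth.contDiffAt

theorem FF_out {q : ℝ × ℝ} (h : G1 q - F3 q < -1) : FF =ᶠ[𝓝 q] F3 := by
  filter_upwards [(G1_smooth.sub good_F3.smooth).continuous.continuousAt.eventually_lt
    continuousAt_const h] with r hr
  rw [FF_eq]
  simp only [Th_zero hr.le, add_zero]

theorem FF_psd (p v : ℝ × ℝ) : 0 ≤ d (d FF v) v p := by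
  have h2 := good_F3.psd p v
  by_cases hv : v = 0
  · simp [hv, d]
  rcases lt_or_ge (G1 p - F3 p) (-1) with h | h
  · rwa [dd_congr (FF_out h)]
  rw [FF_eq, comb_dd good_F3.smooth G1_smooth fun _ => Th_smooth.contDiffAt,
    dd_congr (G1_eq (inside h))]
  have h1 := U_pd (mem_Om (inside h)) hv
  have h3 := Th_deriv (G1 p - F3 p)
  have h4 := mul_nonneg (Th_deriv_mono.deriv_nonneg (x := G1 p - F3 p))
    (mul_self_nonneg (d G1 v p - d F3 v p))
  nlinarith [mul_nonneg h3.1 h1.le, mul_nonneg (sub_nonneg.2 h3.2) h2]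

theorem FF_grad (p v : ℝ × ℝ) (h1 : d F3 v p ∈ Icc (0 : ℝ) 1)
    (h2 : p.2 < -2 ∧ PP p < 1 / 4 → d U v p ∈ Icc (0 : ℝ) 1) : d FF v p ∈ Icc (0 : ℝ) 1 := by
  rcases lt_or_ge (G1 p - F3 p) (-1) with h | h
  · rwa [(d_congr (FF_out h) v).eq_of_nhds]
  rw [FF_eq, comb_d good_F3.smooth G1_smooth fun _ => Th_smooth.contDiffAt]
  simp only [(d_congr (G1_eq (inside h)) v).eq_of_nhds]
  have h3 := h2 (inside h)
  have h4 := Th_deriv (G1 p - F3 p)
  constructor <;>
  nlinarith [mul_nonneg h4.1 h3.1, mul_nonneg (sub_nonneg.2 h4.2) h1.1,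
    mul_nonneg h4.1 (sub_nonneg.2 h3.2), mul_nonneg (sub_nonneg.2 h4.2) (sub_nonneg.2 h1.2)]

theorem good_FF : Good FF where
  smooth := FF_smooth
  psd := FF_psd
  gx p := FF_grad p _ (good_F3.gx p) fun h => U_gx (mem_Om h)
  gy p := FF_grad p _ (good_F3.gy p) fun h => U_gy (mem_Om h) (by linarith [h.1])

theorem det_add {a b c a' b' c' : ℝ} (ha : 0 ≤ a) (hc : 0 ≤ c) (h : b ^ 2 ≤ a * c)
    (ha' : 0 ≤ a') (hc' : 0 ≤ c') (h' : b' ^ 2 ≤ a' * c') :
    (a * c - b ^ 2) + (a' * c' - b' ^ 2) ≤ (a + a') * (c + c') - (b + b') ^ 2 := by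
  have h1 : (2 * (b * b')) ^ 2 ≤ (a * c' + a' * c) ^ 2 := by
    have h2 := mul_le_mul h h' (sq_nonneg _) (mul_nonneg ha hc)
    nlinarith [sq_nonneg (a * c' - a' * c)]
  have h3 := abs_le_of_sq_le_sq' h1 (by positivity)
  nlinarith [h3.2]

theorem hdet_F3 (p : ℝ × ℝ) : hdet (pl 1 1 1 1) p / 16 ≤ hdet F3 p := by
  have h1 := good_one.hdet_nonneg p
  have h2 := (good_F2 0).1.hdet_nonneg p
  have h3 := good_one.psd p (1, 0)
  have h4 := good_one.psd p (0, 1)
  have h5 := (good_F2 0).1.psd p (1, 0)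
  have h6 := (good_F2 0).1.psd p (0, 1)
  simp only [hdet, F3_dd] at h1 h2 ⊢
  refine le_trans ?_ (det_add (by positivity) (by positivity) (by nlinarith) (by positivity)
    (by positivity) (by nlinarith))
  nlinarith

theorem hdet_FF (p : ℝ × ℝ) : hdet (pl 1 1 1 1) p / 20 ≤ hdet FF p := by
  have h0 := hdet_F3 p
  have h1 := good_one.hdet_nonneg p
  rcases lt_or_ge (G1 p - F3 p) (-1) with h | h
  · rw [hdet_congr (FF_out h)]; linarith
  have h2 := mem_Om (inside h)
  have h3 : hdet (pl 1 1 1 1) p / 4 ≤ hdet U p := by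
    rw [U_hdet h2, hdet_one]
    have h4 : 1 ≤ (1 + Real.exp p.1) ^ 2 * (1 + Real.exp p.2) ^ 2 :=
      one_le_mul_of_one_le_of_one_le (one_le_pow₀ (by linarith [Real.exp_pos p.1]))
        (one_le_pow₀ (by linarith [Real.exp_pos p.2]))
    linarith [div_le_self (show 0 ≤ Real.exp p.1 * Real.exp p.2 by positivity) h4]
  have h4 := Th_deriv (G1 p - F3 p)
  have h5 := Th_deriv_mono.deriv_nonneg (x := G1 p - F3 p)
  have h6 := (U_pd h2 (v := (1, 0)) (by simp)).le
  have h7 := (U_pd h2 (v := (0, 1)) (by simp)).le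
  have h8 := good_F3.psd p (1, 0)
  have h9 := good_F3.psd p (0, 1)
  rw [FF_eq]
  simp only [hdet, comb_dd good_F3.smooth G1_smooth fun _ => Th_smooth.contDiffAt,
    dd_congr (G1_eq (inside h))] at h0 h1 h3 ⊢
  generalize deriv Th (G1 p - F3 p) = l at *
  generalize deriv (deriv Th) (G1 p - F3 p) = m at *
  generalize d G1 (1, 0) p - d F3 (1, 0) p = e1 at *
  generalize d G1 (0, 1) p - d F3 (0, 1) p = e2 at *
  generalize d (d U (1, 0)) (1, 0) p = a at *
  generalize d (d U (0, 1)) (0, 1) p = c at *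
  generalize d (d U (1, 0)) (0, 1) p = b at *
  generalize d (d F3 (1, 0)) (1, 0) p = a' at *
  generalize d (d F3 (0, 1)) (0, 1) p = c' at *
  generalize d (d F3 (1, 0)) (0, 1) p = b' at *
  generalize d (d (pl 1 1 1 1) (1, 0)) (1, 0) p * d (d (pl 1 1 1 1) (0, 1)) (0, 1) p -
    d (d (pl 1 1 1 1) (1, 0)) (0, 1) p ^ 2 = D at *
  have hl := h4.1
  have hl' := sub_nonneg.2 h4.2
  have k1 : (l * b) ^ 2 ≤ l * a * (l * c) := by nlinarith [sq_nonneg l]
  have k2 : ((1 - l) * b') ^ 2 ≤ (1 - l) * a' * ((1 - l) * c') := by nlinarith [sq_nonneg (1 - l)]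
  have k3 := det_add (by positivity) (by positivity) k1 (by positivity) (by positivity) k2
  have k4 := det_add (a := l * a + (1 - l) * a') (b := l * b + (1 - l) * b')
    (c := l * c + (1 - l) * c') (a' := m * (e1 * e1)) (b' := m * (e2 * e1)) (c' := m * (e2 * e2))
    (by positivity) (by positivity) (by linarith) (mul_nonneg h5 (mul_self_nonneg _))
    (mul_nonneg h5 (mul_self_nonneg _)) (le_of_eq (by ring))
  have k5 := mul_le_mul_of_nonneg_left h3 (sq_nonneg l)
  have k6 := mul_le_mul_of_nonneg_left h0 (sq_nonneg (1 - l))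
  have k7 := mul_nonneg h1 (sq_nonneg (5 * l - 1))
  nlinarith

theorem near {q : ℝ × ℝ} (h : Real.exp 52 * (1 + Real.exp q.1) ^ 4 < -q.2) :
    1 < G1 q - F3 q := by
  have h0 : 53 ≤ Real.exp 52 := by linarith [Real.add_one_le_exp (52 : ℝ)]
  have h1 : 1 ≤ (1 + Real.exp q.1) ^ 4 := one_le_pow₀ (by linarith [Real.exp_pos q.1])
  have h2 : q.2 ≤ -2 := by nlinarith
  have h3 := Real.log_le_log (by positivity) h.le
  rw [Real.log_mul (by positivity) (by positivity), Real.log_exp, Real.log_pow] at h3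
  have h4 := log_exp_le q.2
  rw [max_eq_right (by linarith)] at h4
  have h5 : Real.log (-q.2) ≤ Real.log (1 + Real.log (1 + Real.exp (-q.2))) :=
    Real.log_le_log (by linarith) (by linarith [le_log_exp (-q.2)])
  have h6 := le_Gs (P := 4 * Real.exp q.1 * Real.exp q.2 * (-q.2) ^ 2) (by positivity)
  rw [F3, F2_zero, pl_one, G1, G0, Real.log_exp, Q_eq h2]
  push_cast at h3
  linarith

theorem hdet_near {q : ℝ × ℝ} (h : Real.exp 52 * (1 + Real.exp q.1) ^ 4 < -q.2) :
    hdet FF q = Real.exp q.1 * Real.exp q.2 / 4 := by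
  have h1 := near h
  have h2 := inside (q := q) (by linarith)
  have h3 : FF =ᶠ[𝓝 q] G1 := by
    filter_upwards [continuousAt_const.eventually_lt
      (G1_smooth.sub good_F3.smooth).continuous.continuousAt h1] with r hr
    rw [FF_eq]
    simp only [Th_id hr.le, add_sub_cancel]
  rw [hdet_congr (h3.trans (G1_eq h2)), U_hdet (mem_Om h2)]

theorem F2_le_FF (q : ℝ × ℝ) : F2 0 q ≤ FF q := by
  rw [FF_eq]
  exact (F2_le_F3 q).trans (le_add_of_nonneg_right (Th_nonneg _))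

theorem good_trF (j : ℝ) {l : ℝ} (hl : 0 < l) :
    Good fun q => pl 1 1 1 1 q + tr j l (pr (sR q.1) (1 - sR q.2)) := by
  let θ : ℝ → ℝ := fun r => l * Th (r / l)
  have hθ : ContDiff ℝ ∞ θ := contDiff_const.mul (Th_smooth.comp (contDiff_id.div_const l))
  have h1 : deriv θ = fun r => deriv Th (r / l) := funext fun r => by
    have := ((Th_diff (r / l)).hasDerivAt.comp r ((hasDerivAt_id' r).div_const l)).const_mul l
    refine this.deriv.trans ?_
    field_simp
  have h2 : Monotone (deriv θ) := fun a b hab => by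
    simp only [h1]; exact Th_deriv_mono (by gcongr)
  have := (good_one.add_const (-j)).comb good_FF (fun _ => hθ.contDiffAt)
    (fun p => by rw [h1]; exact Th_deriv _) fun _ => h2.deriv_nonneg
  refine (congrArg Good ?_).mp this
  ext q
  simp only [θ, tr, FF, add_sub_add_left_eq_sub, sub_neg_eq_add, add_assoc]

end Pool.Agent.Lib.MP_ada39e_an.Ub
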